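import Pool.Agent.Lib.MP_dd9c4c_nt.Sc.Defs
import Pool.Agent.Lib.MP_cd184e_ag.B.ProjModel
import Pool.Agent.Lib.MP_cd184e_ag.B.TangH

/-! The scheme attached to a generic point `ξ`, with its charts inside the field `L`. -/

set_option autoImplicit false

namespace Pool.Agent.Lib.MP_dd9c4c_nt.Sc

open CategoryTheory AlgebraicGeometry TopologicalSpace
open Pool.Agent.Lib.MP_cd184e_ag.T Pool.Agent.Lib.MP_cd184e_ag.B

noncomputable section

variable {K L ι : Type} [Field K] [Field L] [Algebra K L]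

theorem gen_mem' {Y : Scheme.{0}} [IsIntegral Y] (W : Y.Opens) [h : Nonempty W] :
    genericPoint Y ∈ W :=
  ((genericPoint_spec Y).mem_open_set_iff W.isOpen).2 (by simpa using h)

instance ne_inf {Y : Scheme.{0}} [IsIntegral Y] (U V : Y.Opens) [Nonempty U] [Nonempty V] :
    Nonempty (U ⊓ V : Y.Opens) :=
  ⟨⟨_, gen_mem' U, gen_mem' V⟩⟩

theorem germ_res {Y : Scheme.{0}} [IsIntegral Y] {U W : Y.Opens} [Nonempty U] [Nonempty W]
    (h : W ≤ U) (t : Γ(Y, U)) :
    Y.germToFunctionField W (rres h t) = Y.germToFunctionField U t :=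
  Y.presheaf.germ_res_apply _ _ _ _

theorem exists_phi {X : ProjVar K L} {Y : Scheme.{0}} [IsIntegral Y] (𝓜 : Model X Y)
    (s₀ : X.Idx) (hK : IsFractionRing (X.A s₀.1) L) :
    ∃ φ : Y.functionField ≃+* L, ∀ (s : X.Idx) [Nonempty (𝓜.U s)] (a : Γ(Y, 𝓜.U s)),
      φ (Y.germToFunctionField (𝓜.U s) a) = 𝓜.e s a := by
  have ne : ∀ s, Nonempty (𝓜.U s) := fun s => (𝓜.nonempty s).to_subtype
  have := functionField_isFractionRing_of_isAffineOpen Y _ (𝓜.aff s₀)
  let φ : Y.functionField ≃+* L := IsFractionRing.ringEquivOfRingEquiv (𝓜.e s₀)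
  have h0 : ∀ a, φ (Y.germToFunctionField _ a) = 𝓜.e s₀ a := fun a =>
    IsFractionRing.ringEquivOfRingEquiv_algebraMap (𝓜.e s₀) a
  refine ⟨φ, fun s _ a => ?_⟩
  have h1 : ∀ b : X.A s₀.1, φ (Y.germToFunctionField (𝓜.U (un s s₀))
      ((𝓜.e _).symm (X.inc (le_un_right s s₀) b))) = b := fun b => by
    rw [𝓜.symm_inc, germ_res, h0, RingEquiv.apply_symm_apply]
  obtain ⟨u, b, hu, e⟩ := X.exists_denominator (le_un_right s s₀)
    (X.inc (le_un_left s s₀) (𝓜.e s a))
  have e1 := congrArg (fun z => φ (Y.germToFunctionField (𝓜.U (un s s₀)) ((𝓜.e _).symm z))) e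
  have e2 : (u : L) * 𝓜.e s a = b := by
    simpa only [MulMemClass.coe_mul, X.coe_inc] using congrArg Subtype.val e
  have hu' : (u : L) ≠ 0 := X.coe_inc (le_un_right s s₀) u ▸ (hu.map (X.A _).val).ne_zero
  simp only [map_mul, h1] at e1
  rw [𝓜.symm_inc, germ_res, RingEquiv.symm_apply_apply, ← e2] at e1
  exact mul_left_cancel₀ hu' e1

theorem germ_const {Y : Scheme.{0}} [IsIntegral Y] (f : Y ⟶ Spec (.of K)) (W : Y.Opens)
    [Nonempty W] (c : K) :
    Y.germToFunctionField W (const f W c) = (constAlgebra f).algebraMap c :=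
  Y.presheaf.germ_res_apply _ _ _ _

theorem germ_away {X : ProjVar K L} [IsIntegral (Proj (grade X))]
    (φ : (Proj (grade X)).functionField ≃+* L)
    (hφ : ∀ (s : X.Idx) [Nonempty ((projModel X).U s)] (a : Γ(Proj (grade X), (projModel X).U s)),
      φ ((Proj (grade X)).germToFunctionField ((projModel X).U s) a) = (projModel X).e s a)
    (s : X.Idx) (hs : s.1.card = 1) {g : hring X} (h : prodGen X s.1 = g) (hg : g ∈ grade X 1)
    [Nonempty (Proj.basicOpen (grade X) g)] (a : hring X) (ha : a ∈ grade X (1 • 1)) :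
    φ ((Proj (grade X)).germToFunctionField _ (Proj.awayToSection (grade X) g
      (HomogeneousLocalization.Away.mk _ hg 1 a ha))) = ev X a / ev X g := by
  subst h
  have e : HomogeneousLocalization.Away.mk _ hg 1 a ha =
      HomogeneousLocalization.Away.mk _ (prodGen_mem X s.1) 1 a (by rwa [hs]) := by
    apply HomogeneousLocalization.val_injective
    rw [HomogeneousLocalization.Away.val_mk, HomogeneousLocalization.Away.val_mk]
  have : Nonempty ((projModel X).U s) := ‹_›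
  rw [e]
  refine (hφ s _).trans ((congrArg Subtype.val (secEquiv_away X s _)).trans ?_)
  rw [coe_awayEquiv, toK_mk, pow_one]

/-- The functions on `W` as a subring of `L`. -/
def rng {Y : Scheme.{0}} [IsIntegral Y] (φ : Y.functionField ≃+* L) (W : Y.Opens) [Nonempty W] :
    Subring L := (φ.toRingHom.comp (Y.germToFunctionField W).hom).range

theorem mem_rng {Y : Scheme.{0}} [IsIntegral Y] {φ : Y.functionField ≃+* L} {W : Y.Opens}
    [Nonempty W] {z : L} : z ∈ rng φ W ↔ ∃ a, φ (Y.germToFunctionField W a) = z := Iff.rfl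

theorem rng_anti {Y : Scheme.{0}} [IsIntegral Y] (φ : Y.functionField ≃+* L) {U W : Y.Opens}
    [Nonempty U] [Nonempty W] (h : W ≤ U) : rng φ U ≤ rng φ W :=
  fun _ ⟨a, e⟩ => ⟨rres h a, (congrArg φ (germ_res h a)).trans e⟩

variable (K) in
/-- An affine cover of an integral scheme whose rings are the charts of `ξ`. -/
structure Charts (ξ : ι → L) (Y : Scheme.{0}) [IsIntegral Y] (U : ι → Y.Opens)
    [∀ i, Nonempty (U i)] (φ : Y.functionField ≃+* L) : Prop where
  cover : iSup U = ⊤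
  aff : ∀ i, IsAffineOpen (U i)
  aff2 : ∀ i j, IsAffineOpen (U i ⊓ U j)
  r1 : ∀ i z, z ∈ chart K ξ i ↔ z ∈ rng φ (U i)
  r2 : ∀ i j z, z ∈ chart K ξ i ⊔ chart K ξ j ↔ z ∈ rng φ (U i ⊓ U j)
  r3 : ∀ i j k z, z ∈ chart K ξ i ⊔ chart K ξ j ⊔ chart K ξ k ↔ z ∈ rng φ (U i ⊓ U j ⊓ U k)

variable [Fintype ι] [Nonempty ι]

variable (K) in
/-- The projective variety with generic point `ξ`. -/
def var (ξ : ι → L) (hne : ∀ i, ξ i ≠ 0) : ProjVar K L where
  n := Fintype.card ι
  f l := ξ ((Fintype.equivFin ι).symm l)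
  J := Finset.univ
  ne _ _ := hne _
  nonempty := ⟨Fintype.equivFin ι (Classical.arbitrary ι), Finset.mem_univ _⟩
  cover l := ⟨0, by
    rw [zero_add, pow_one, pow_zero, mul_one]
    exact Submodule.subset_span ⟨l, Finset.mem_coe.2 (Finset.mem_univ _), rfl⟩⟩

variable {ξ : ι → L} (hne : ∀ i, ξ i ≠ 0)

variable (K) in
/-- The homogeneous coordinates. -/
def xx (i : ι) : hring (var K ξ hne) := gen _ (Fintype.equivFin ι i)

theorem xx_mem (i : ι) : xx K hne i ∈ grade (var K ξ hne) 1 := gen_mem _ _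

theorem ev_xx (i : ι) : ev _ (xx K hne i) = ξ i :=
  (ev_gen _ _).trans (congrArg ξ ((Fintype.equivFin ι).symm_apply_apply i))

theorem adjoin_xx : Algebra.adjoin K (Set.range (xx K hne)) = ⊤ := by
  rw [← adjoin_gen]
  exact congrArg _ ((Fintype.equivFin ι).surjective.range_comp (gen (var K ξ hne)))

/-- A single chart. -/
def idx (i : ι) : (var K ξ hne).Idx := one ⟨Fintype.equivFin ι i, Finset.mem_univ _⟩

theorem A_idx (i : ι) : (var K ξ hne).A (idx hne i).1 = chart K ξ i := by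
  rw [ProjVar.A, chart]
  congr 1
  ext z
  constructor
  · rintro ⟨l, j, hj, rfl⟩
    obtain rfl := Finset.mem_singleton.1 hj
    exact ⟨(Fintype.equivFin ι).symm l, by simp [var]⟩
  · rintro ⟨j, rfl⟩
    refine ⟨Fintype.equivFin ι j, _, Finset.mem_singleton_self _, ?_⟩
    simp [var]

theorem prodGen_idx (i : ι) : prodGen _ (idx (K := K) hne i).1 = xx K hne i :=
  Finset.prod_singleton _ _

theorem chartOpen_idx (i : ι) :
    chartOpen _ (idx hne i) = Proj.basicOpen (grade (var K ξ hne)) (xx K hne i) :=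
  congrArg _ (prodGen_idx hne i)

instance integral : IsIntegral (Proj (grade (var K ξ hne))) := (projModel _).isIntegral

instance ne_chart (i : ι) : Nonempty (Proj.basicOpen (grade (var K ξ hne)) (xx K hne i)) :=
  chartOpen_idx (K := K) hne i ▸ ((projModel _).nonempty (idx hne i)).to_subtype

omit [Fintype ι] [Nonempty ι] in
theorem Hyp.frac (h : Hyp K ξ) (i : ι) : IsFractionRing (chart K ξ i) L := by
  refine IsFractionRing.of_field _ _ fun z => ?_
  have hz : z ∈ IntermediateField.adjoin K {z | ∃ i j, z = ξ i / ξ j} := h.gen ▸ trivial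
  obtain ⟨a, ha, b, hb, rfl⟩ := IntermediateField.mem_adjoin_iff_div.1 hz
  have key : ∀ a ∈ Algebra.adjoin K {z | ∃ i j, z = ξ i / ξ j},
      ∃ u ∈ chart K ξ i, ∃ v ∈ chart K ξ i, v ≠ 0 ∧ a = u / v := by
    intro a ha
    induction ha using Algebra.adjoin_induction with
    | mem z hz =>
      obtain ⟨j, l, rfl⟩ := hz
      refine ⟨_, Algebra.subset_adjoin ⟨j, rfl⟩, _, Algebra.subset_adjoin ⟨l, rfl⟩,
        div_ne_zero (h.ne l) (h.ne i), ?_⟩
      rw [div_div_div_cancel_right₀ (h.ne i)]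
    | algebraMap c => exact ⟨_, Subalgebra.algebraMap_mem _ c, 1, one_mem _, one_ne_zero, by simp⟩
    | add a b _ _ ha hb =>
      obtain ⟨u, hu, v, hv, h0, rfl⟩ := ha
      obtain ⟨u', hu', v', hv', h0', rfl⟩ := hb
      exact ⟨_, add_mem (mul_mem hu hv') (mul_mem hv hu'), _, mul_mem hv hv', mul_ne_zero h0 h0',
        div_add_div _ _ h0 h0'⟩
    | mul a b _ _ ha hb =>
      obtain ⟨u, hu, v, hv, h0, rfl⟩ := ha
      obtain ⟨u', hu', v', hv', h0', rfl⟩ := hb
      exact ⟨_, mul_mem hu hu', _, mul_mem hv hv', mul_ne_zero h0 h0', div_mul_div_comm _ _ _ _⟩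
  obtain ⟨u, hu, v, hv, -, rfl⟩ := key a ha
  obtain ⟨u', hu', v', hv', -, rfl⟩ := key b hb
  exact ⟨⟨_, mul_mem hu hv'⟩, ⟨_, mul_mem hv hu'⟩, div_div_div_eq _ _ _ _⟩

theorem exists_charts (hK : ∀ i, IsFractionRing (chart K ξ i) L) :
    ∃ φ : (Proj (grade (var K ξ hne))).functionField ≃+* L,
      Charts K ξ _ (fun i => Proj.basicOpen (grade (var K ξ hne)) (xx K hne i)) φ ∧
      (∀ c, φ ((constAlgebra (strMap (grade (var K ξ hne)))).algebraMap c) = algebraMap K L c) ∧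
      ∀ i j, φ ((Proj _).germToFunctionField _ (ratio _ (xx K hne) (xx_mem hne) i j)) =
        ξ j / ξ i := by
  let 𝓜 := projModel (var K ξ hne)
  have ne : ∀ s, Nonempty (𝓜.U s) := fun s => (𝓜.nonempty s).to_subtype
  obtain ⟨i₀⟩ := ‹Nonempty ι›
  obtain ⟨φ, hφ⟩ := exists_phi 𝓜 (idx hne i₀) (A_idx (K := K) hne i₀ ▸ hK i₀)
  have hA : ∀ s (W : (Proj (grade (var K ξ hne))).Opens) [Nonempty W], W = 𝓜.U s → ∀ z,
      z ∈ (var K ξ hne).A s.1 ↔ z ∈ rng φ W := by
    rintro s _ _ rfl z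
    exact ⟨fun hx => ⟨(𝓜.e s).symm ⟨z, hx⟩, (hφ s _).trans (by rw [RingEquiv.apply_symm_apply])⟩,
      fun ⟨a, e⟩ => e ▸ (hφ s a).symm ▸ (𝓜.e s a).2⟩
  have hU : ∀ i, Proj.basicOpen (grade (var K ξ hne)) (xx K hne i) = 𝓜.U (idx hne i) :=
    fun i => (chartOpen_idx hne i).symm
  refine ⟨φ, ⟨?_, fun i => hU i ▸ 𝓜.aff _, fun i j => ?_, fun i z => ?_, fun i j z => ?_,
    fun i j k z => ?_⟩, fun c => ?_, fun i j => ?_⟩
  · rw [eq_top_iff, ← 𝓜.cover_one, iSup_le_iff]
    rintro ⟨l, hl⟩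
    obtain ⟨i, rfl⟩ := (Fintype.equivFin ι).surjective l
    exact (hU i).ge.trans (le_iSup (fun i => Proj.basicOpen _ (xx K hne i)) i)
  · rw [hU, hU, 𝓜.inf_eq]
    exact 𝓜.aff _
  · rw [← A_idx hne]
    exact hA _ _ (hU i) z
  · rw [← A_idx hne, ← A_idx hne, ← A_union]
    exact hA (un (idx hne i) (idx hne j)) _ (by rw [hU, hU, 𝓜.inf_eq]) z
  · rw [← A_idx hne, ← A_idx hne, ← A_idx hne, ← A_union, ← A_union]
    exact hA (un (un (idx hne i) (idx hne j)) (idx hne k)) _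
      (by rw [hU, hU, hU, 𝓜.inf_eq, 𝓜.inf_eq]) z
  · have h1 : 𝓜.e (idx hne i₀) (const (strMap (grade (var K ξ hne))) (𝓜.U (idx hne i₀)) c) =
        algebraMap K _ c := secEquiv_const _ (idx hne i₀) c
    have h2 := germ_const (strMap (grade (var K ξ hne))) (𝓜.U (idx hne i₀)) c
    have h3 := hφ (idx hne i₀) (const (strMap (grade (var K ξ hne))) (𝓜.U (idx hne i₀)) c)
    rw [h2, h1] at h3
    exact h3
  · have h1 := germ_away φ hφ (idx hne i) (Finset.card_singleton _) (prodGen_idx hne i)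
      (xx_mem hne i) (xx K hne j) (xx_mem hne j)
    rw [ev_xx, ev_xx] at h1
    exact h1

end

end Pool.Agent.Lib.MP_dd9c4c_nt.Sc
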