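import Pool.Agent.Lib.MP_dd9c4c_nt.Sc.Emb
import Pool.Agent.Lib.MP_dd9c4c_nt.Sc.Var

/-! Vanishing of the first and second cohomology of the structure sheaf. -/

set_option autoImplicit false

namespace Pool.Agent.Lib.MP_dd9c4c_nt.Sc

open CategoryTheory AlgebraicGeometry Opposite TopologicalSpace
open Pool.Agent.Lib.MP_cd184e_ag.B

noncomputable section

variable {K L ι : Type} [Field K] [Field L] [Algebra K L] {Y : Scheme.{0}} [IsIntegral Y]
  (φ : Y.functionField ≃+* L)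

/-- A function as an element of the field. -/
def val (U : Y.Opens) (h : genericPoint Y ∈ U) : Γ(Y, U) →+* L :=
  φ.toRingHom.comp (Y.presheaf.germ U _ h).hom

theorem val_res {U V : Y.Opens} (i : V ≤ U) (h : genericPoint Y ∈ V) (a : Γ(Y, U)) :
    val φ V h (rres i a) = val φ U (i h) a :=
  congrArg φ (Y.presheaf.germ_res_apply (homOfLE i) _ h a)

theorem val_inj (U : Y.Opens) (h : genericPoint Y ∈ U) : Function.Injective (val φ U h) :=
  φ.injective.comp (germ_injective_of_isIntegral Y _ h)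

theorem gen_of_mem {U : Y.Opens} {x : Y} (hx : x ∈ U) : genericPoint Y ∈ U :=
  @gen_mem' _ _ U ⟨⟨x, hx⟩⟩

/-- The structure sheaf inside the constant sheaf. -/
def embAdd : Emb (X := Y) (genericPoint Y) (addSheaf Y) L where
  γ U h := (val φ U h).toAddMonoidHom
  res := val_res φ
  inj := val_inj φ
  gen := gen_of_mem

theorem reg_add {U : Y.Opens} (h : genericPoint Y ∈ U) {z : L} :
    (embAdd φ).Reg U z ↔ z ∈ (val φ U h).range :=
  ⟨fun ⟨_, a, e⟩ => ⟨a, e⟩, fun ⟨a, e⟩ => ⟨h, a, e⟩⟩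

theorem rng_eq (U : Y.Opens) [Nonempty U] : rng φ U = (val φ U (gen_mem' U)).range := rfl

variable {U : Y.Opens}

theorem val_ne {s : Γ(Y, U)} (hs : genericPoint Y ∈ Y.basicOpen s) :
    val φ U (Y.basicOpen_le s hs) s ≠ 0 := by
  rw [← val_res φ (Y.basicOpen_le s) hs]
  exact ((isUnit_rres s _ le_rfl).map _).ne_zero

theorem inv_mem {s : Γ(Y, U)} (hs : genericPoint Y ∈ Y.basicOpen s) :
    (val φ U (Y.basicOpen_le s hs) s)⁻¹ ∈ (val φ _ hs).range := by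
  obtain ⟨u, hu⟩ := (isUnit_rres s (Y.basicOpen_le s) le_rfl).exists_right_inv
  refine ⟨u, eq_inv_of_mul_eq_one_right ?_⟩
  rw [← val_res φ (Y.basicOpen_le s) hs, ← map_mul, hu, map_one]

theorem mem_basic (hU : IsAffineOpen U) {s : Γ(Y, U)} (hs : genericPoint Y ∈ Y.basicOpen s)
    {z : L} : z ∈ (val φ _ hs).range ↔ ∃ n : ℕ, val φ U (Y.basicOpen_le s hs) s ^ n * z ∈
      (val φ U (Y.basicOpen_le s hs)).range := by
  constructor
  · rintro ⟨a, rfl⟩
    have loc := hU.isLocalization_basicOpen s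
    obtain ⟨⟨b, _, n, rfl⟩, e⟩ := IsLocalization.surj (Submonoid.powers s) a
    refine ⟨n, b, ?_⟩
    rw [← map_pow, ← val_res φ (Y.basicOpen_le s) hs, ← val_res φ (Y.basicOpen_le s) hs, ← map_mul,
      mul_comm]
    exact congrArg _ e.symm
  · rintro ⟨n, a, e⟩
    rw [show z = (val φ U (Y.basicOpen_le s hs) s)⁻¹ ^ n * val φ U (Y.basicOpen_le s hs) a by
      rw [e, inv_pow, inv_mul_cancel_left₀ (pow_ne_zero _ (val_ne φ hs))]]
    exact mul_mem (pow_mem (inv_mem φ hs) _) ⟨_, val_res φ (Y.basicOpen_le s) hs a⟩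

omit [IsIntegral Y] in
theorem exists_cover (hU : IsAffineOpen U) (P : Y.Opens → Prop)
    (hP : ∀ V W, W ≤ V → P V → P W) (h : ∀ x ∈ U, ∃ V, x ∈ V ∧ P V) :
    ∃ t : Finset Γ(Y, U), Ideal.span (Set.range fun a : t => a.1) = ⊤ ∧
      (U ≤ ⨆ a : t, Y.basicOpen a.1) ∧
      ∀ a : t, P (Y.basicOpen a.1) ∧ ∃ x, x ∈ Y.basicOpen a.1 := by
  have h1 : Ideal.span {s : Γ(Y, U) | P (Y.basicOpen s) ∧ ∃ x, x ∈ Y.basicOpen s} = ⊤ := by
    rw [← hU.self_le_iSup_basicOpen_iff]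
    intro x hx
    obtain ⟨V, hV, hp⟩ := h x hx
    obtain ⟨s, h1, h2⟩ := hU.exists_basicOpen_le ⟨x, hV⟩ hx
    exact Opens.mem_iSup.2 ⟨⟨s, hP _ _ h1 hp, x, h2⟩, h2⟩
  obtain ⟨t, ht, h2⟩ := (Ideal.span_eq_top_iff_finite _).1 h1
  exact ⟨t, by rwa [Subtype.range_coe_subtype], hU.self_le_iSup_basicOpen_iff.2 h2,
    fun a => ht a.2⟩

theorem uniform {α : Type} [Finite α] {A : Subring L} {g c : α → L} (hg : ∀ a, g a ∈ A)
    (h : ∀ a, ∃ n : ℕ, g a ^ n * c a ∈ A) : ∃ N : ℕ, ∀ a, g a ^ N * c a ∈ A := by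
  choose n hn using h
  obtain ⟨N, hN⟩ := (Set.finite_range n).bddAbove
  refine ⟨N, fun a => ?_⟩
  obtain ⟨k, rfl⟩ := Nat.exists_eq_add_of_le' (hN ⟨a, rfl⟩)
  rw [pow_add, mul_assoc]
  exact mul_mem (pow_mem (hg a) _) (hn a)

section Serre

variable (hU : IsAffineOpen U) {α : Type} [Fintype α] {s : α → Γ(Y, U)}
  (hs : Ideal.span (Set.range s) = ⊤) (hη : ∀ a, genericPoint Y ∈ Y.basicOpen (s a))
  (h0 : genericPoint Y ∈ U)

include hs in
theorem partition (N : ℕ) : ∃ h : α → L, (∀ a, h a ∈ (val φ U h0).range) ∧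
    ∑ a, h a * val φ U h0 (s a) ^ N = 1 := by
  have h1 : Ideal.span (Set.range fun a => s a ^ N) = ⊤ := by
    rw [← Ideal.span_pow_eq_top _ hs N, ← Set.range_comp]
    rfl
  obtain ⟨h, e⟩ := Ideal.mem_span_range_iff_exists_fun.1 ((Ideal.eq_top_iff_one _).1 h1)
  exact ⟨fun a => val φ U h0 (h a), fun a => ⟨_, rfl⟩, by
    simpa only [map_sum, map_mul, map_pow, map_one] using congrArg (val φ U h0) e⟩

include hU in
theorem reg_basic {t : Γ(Y, U)} {W : Y.Opens} (e : W = Y.basicOpen t)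
    (h : genericPoint Y ∈ W) {z : L} :
    (embAdd φ).Reg W z ↔ ∃ n : ℕ, val φ U h0 t ^ n * z ∈ (val φ U h0).range := by
  subst e
  exact (reg_add φ h).trans (mem_basic φ hU h)

include hU hs hη h0

theorem serre1 : (embAdd φ).C1 fun a => Y.basicOpen (s a) := by
  intro c hc hcc
  obtain ⟨N, hN⟩ := uniform (A := (val φ U h0).range)
    (g := fun p : α × α => val φ U h0 (s p.1 * s p.2)) (c := fun p => c p.1 p.2)
    (fun _ => ⟨_, rfl⟩) fun p => (reg_basic φ hU h0 (Y.basicOpen_mul _ _).symm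
      ⟨hη _, hη _⟩).1 (hc p.1 p.2)
  obtain ⟨h, hh, e⟩ := partition φ hs h0 N
  refine ⟨fun b => ∑ a, h a * val φ U h0 (s a) ^ N * c a b, fun b =>
    (reg_basic φ hU h0 rfl (hη b)).2 ⟨N, ?_⟩, fun i j => ?_⟩
  · rw [Finset.mul_sum]
    refine sum_mem fun a _ => ?_
    have := mul_mem (hh a) (hN (a, b))
    rw [map_mul, mul_pow] at this
    rwa [mul_left_comm, mul_assoc (h a), ← mul_assoc (_ ^ N)]
  · rw [← Finset.sum_sub_distrib, ← one_mul (c i j), ← e, Finset.sum_mul]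
    exact Finset.sum_congr rfl fun a _ => by linear_combination h a * val φ U h0 (s a) ^ N * hcc a i j

theorem serre2 : (embAdd φ).C2 fun a => Y.basicOpen (s a) := by
  intro c hc hcc
  obtain ⟨N, hN⟩ := uniform (A := (val φ U h0).range)
    (g := fun p : α × α × α => val φ U h0 (s p.1 * s p.2.1 * s p.2.2))
    (c := fun p => c p.1 p.2.1 p.2.2) (fun _ => ⟨_, rfl⟩) fun p => (reg_basic φ hU h0
      (W := Y.basicOpen (s p.1) ⊓ Y.basicOpen (s p.2.1) ⊓ Y.basicOpen (s p.2.2))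
      (by rw [Y.basicOpen_mul, Y.basicOpen_mul]) ⟨⟨hη _, hη _⟩, hη _⟩).1 (hc p.1 p.2.1 p.2.2)
  obtain ⟨h, hh, e⟩ := partition φ hs h0 N
  refine ⟨fun b b' => ∑ a, h a * val φ U h0 (s a) ^ N * c a b b', fun b b' =>
    (reg_basic φ hU h0 (Y.basicOpen_mul _ _).symm ⟨hη b, hη b'⟩).2 ⟨N, ?_⟩, fun i j k => ?_⟩
  · rw [Finset.mul_sum]
    refine sum_mem fun a _ => ?_
    have := mul_mem (hh a) (hN (a, b, b'))
    rw [mul_assoc (s a), map_mul, mul_pow] at this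
    rwa [mul_left_comm, mul_assoc (h a), ← mul_assoc (_ ^ N)]
  · rw [← Finset.sum_sub_distrib, ← Finset.sum_add_distrib, ← one_mul (c i j k), ← e,
      Finset.sum_mul]
    exact Finset.sum_congr rfl fun a _ => by
      linear_combination h a * val φ U h0 (s a) ^ N * hcc a i j k

end Serre

theorem loc_cls {W : Y.Opens} (q : (embAdd φ).Q.obj.obj (op W)) {x : Y} (hx : x ∈ W) :
    ∃ V : Y.Opens, x ∈ V ∧ ∃ h : V ≤ W, ∃ d, (embAdd φ).cls V d = sres _ h q := by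
  obtain ⟨V, h, hV, e⟩ := (embAdd φ).cls_loc q hx
  exact ⟨V, hV, h, e⟩

theorem surj_cls (hU : IsAffineOpen U) (h0 : genericPoint Y ∈ U) :
    Function.Surjective ((embAdd φ).cls U) := fun q => by
  obtain ⟨t, h1, h2, h3⟩ := exists_cover hU
    (fun V => ∃ h : V ≤ U, ∃ d, (embAdd φ).cls V d = sres _ h q)
    (fun V W i ⟨h, d, e⟩ => ⟨i.trans h, d, by rw [← Emb.cls_res _ i, e, sres_sres]⟩)
    fun x hx => loc_cls φ q hx
  have hη := fun a : t => (h3 a).2.elim fun _ => gen_of_mem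
  have : Nonempty t := (Opens.mem_iSup.1 (h2 h0)).elim fun a _ => ⟨a⟩
  exact (embAdd φ).glue1 (fun a => Y.basicOpen_le _) h2 hη (serre1 φ hU h1 hη h0) q
    fun a => (h3 a).1.2

theorem surj_aff (hU : IsAffineOpen U) (h0 : genericPoint Y ∈ U)
    {J R : TopCat.Sheaf AddCommGrpCat.{0} Y} {f : (embAdd φ).Q ⟶ J} {g : J ⟶ R} {w : f ≫ g = 0}
    (hT : (ShortComplex.mk f g w).ShortExact) : Function.Surjective (sapp g U) := fun r => by
  obtain ⟨t, h1, h2, h3⟩ := exists_cover hU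
    (fun V => ∃ h : V ≤ U, ∃ j, sapp g V j = sres _ h r)
    (fun V W i ⟨h, j, e⟩ => ⟨i.trans h, sres _ i j, by rw [← sres_sapp, e, sres_sres]⟩)
    fun x hx => (sapp_loc hT r hx).elim fun V ⟨h, hV, e⟩ => ⟨V, hV, h, e⟩
  have hη := fun a : t => (h3 a).2.elim fun _ => gen_of_mem
  have : Nonempty t := (Opens.mem_iSup.1 (h2 h0)).elim fun a _ => ⟨a⟩
  exact (embAdd φ).glue2 (fun a => Y.basicOpen_le _) h2 hη (serre2 φ hU h1 hη h0)
    (fun a b => surj_cls φ (Y.basicOpen_mul _ _ ▸ hU.basicOpen _) ⟨hη a, hη b⟩) hT r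
    fun a => (h3 a).1.2

variable {φ} {ξ : ι → L} {W : ι → Y.Opens} [∀ i, Nonempty (W i)] [Nonempty ι]

theorem Charts.H1 (C : Charts K ξ Y W φ) (h : Hyp K ξ) :
    Vanish (addSheaf Y) 1 := by
  refine (embAdd φ).H1 fun q => (embAdd φ).glue1 (fun _ => le_top) C.cover.ge
    (fun i => gen_mem' (W i)) (fun c hc hcc => ?_) q fun i => surj_cls φ (C.aff i) (gen_mem' _) _
  obtain ⟨b, hb, e⟩ := h.h1 c (fun i j => (C.r2 i j _).2 ((reg_add φ _).1 (hc i j))) hcc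
  exact ⟨b, fun i => (reg_add φ _).2 ((C.r1 i _).1 (hb i)), e⟩

theorem Charts.H2 (C : Charts K ξ Y W φ) (h : Hyp K ξ) :
    Vanish (addSheaf Y) 2 := by
  refine (embAdd φ).H2 fun hT r => (embAdd φ).glue2 (fun _ => le_top) C.cover.ge
    (fun i => gen_mem' (W i)) (fun c hc hcc => ?_)
    (fun i j => surj_cls φ (C.aff2 i j) (gen_mem' _)) hT r
    fun i => surj_aff φ (C.aff i) (gen_mem' _) hT _
  obtain ⟨b, hb, e⟩ := h.h2 c (fun i j k => (C.r3 i j k _).2 ((reg_add φ _).1 (hc i j k))) hcc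
  exact ⟨b, fun i j => (reg_add φ _).2 ((C.r2 i j _).1 (hb i j)), e⟩

end

end Pool.Agent.Lib.MP_dd9c4c_nt.Sc
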