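import Pool.Agent.Lib.MP_dd9c4c_nt.Sc.Acyc

/-! Sheaves embedded in a constant sheaf on an irreducible space, and Cech cocycles. -/

set_option autoImplicit false

namespace Pool.Agent.Lib.MP_dd9c4c_nt.Sc

open CategoryTheory Opposite TopologicalSpace Limits

noncomputable section

variable {X : TopCat.{0}}

/-- The sections of `F` over nonempty open sets as elements of `D`. -/
structure Emb (η : X) (F : TopCat.Sheaf AddCommGrpCat.{0} X) (D : Type) [AddCommGroup D] where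
  γ : ∀ U : Opens X, η ∈ U → F.obj.obj (op U) →+ D
  res : ∀ {U V : Opens X} (i : V ≤ U) (h : η ∈ V) a, γ V h (sres F i a) = γ U (i h) a
  inj : ∀ U h, Function.Injective (γ U h)
  gen : ∀ {U : Opens X} {x : X}, x ∈ U → η ∈ U

namespace Emb

variable {η : X} {F : TopCat.Sheaf AddCommGrpCat.{0} X} {D : Type} [AddCommGroup D]
  (E : Emb η F D)

/-- The embedding in the constant sheaf and its cokernel. -/
def S : ShortComplex (TopCat.Sheaf AddCommGrpCat.{0} X) :=
  ShortComplex.mk (toG η E.γ E.res) (cokernel.π _) (cokernel.condition _)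

theorem se : E.S.ShortExact := by
  have : Mono (toG η E.γ E.res) := by
    have : ∀ V, Mono ((toG η E.γ E.res).hom.app V) := fun V =>
      (AddCommGrpCat.mono_iff_injective _).2 fun a b e => by
        refine s_ext F (fun _ : V.unop => V.unop) (fun _ => le_rfl)
          (fun x hx => Opens.mem_iSup.2 ⟨⟨x, hx⟩, hx⟩) _ _ fun x => ?_
        exact congrArg _ (E.inj _ (E.gen x.2) (congrFun e ⟨E.gen x.2⟩))
    have : Mono (toG η E.γ E.res).hom := NatTrans.mono_of_mono_app _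
    exact (TopCat.Sheaf.forget _ _).mono_of_mono_map this
  exact { exact := ShortComplex.exact_cokernel _
          mono_f := this
          epi_g := inferInstanceAs (Epi (cokernel.π (toG η E.γ E.res))) }

/-- The quotient sheaf. -/
abbrev Q : TopCat.Sheaf AddCommGrpCat.{0} X := E.S.X₃

/-- The class of a constant. -/
def cls (U : Opens X) : D →+ E.Q.obj.obj (op U) :=
  (sapp E.S.g U).comp (AddMonoidHom.mk' (fun d (_ : PLift (η ∈ U)) => d) fun _ _ => rfl)

/-- The element `d` is a section of `F` over `U`. -/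
def Reg (U : Opens X) (d : D) : Prop := ∃ h a, E.γ U h a = d

theorem cls_res {U V : Opens X} (h : V ≤ U) (d : D) : sres E.Q h (E.cls U d) = E.cls V d :=
  sres_sapp E.S.g h _

theorem cls_eq_zero {U : Opens X} (h : η ∈ U) (d : D) : E.cls U d = 0 ↔ E.Reg U d := by
  constructor
  · intro e
    obtain ⟨a, ha⟩ := sapp_exact E.se _ e
    exact ⟨h, a, congrFun ha ⟨h⟩⟩
  · rintro ⟨_, a, rfl⟩
    exact sapp_zero E.S U a

theorem cls_eq {U : Opens X} (h : η ∈ U) (d d' : D) :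
    E.cls U d = E.cls U d' ↔ E.Reg U (d - d') := by
  rw [← E.cls_eq_zero h, map_sub, sub_eq_zero]

theorem cls_loc {U : Opens X} (q : E.Q.obj.obj (op U)) {x : X} (hx : x ∈ U) :
    ∃ (W : Opens X) (h : W ≤ U), x ∈ W ∧ ∃ d, E.cls W d = sres _ h q := by
  obtain ⟨W, h, hW, s, hs⟩ := sapp_loc E.se q hx
  exact ⟨W, h, hW, (s : PLift (η ∈ W) → D) ⟨E.gen hW⟩, hs⟩

theorem surj_g {U : Opens X} (h : Function.Surjective (E.cls U)) :
    Function.Surjective (sapp E.S.g U) := fun q => (h q).elim fun _ e => ⟨_, e⟩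

variable {α : Type} (W : α → Opens X)

/-- Cech cocycles of degree one are coboundaries. -/
def C1 : Prop := ∀ c : α → α → D, (∀ a b, E.Reg (W a ⊓ W b) (c a b)) →
  (∀ i j k, c j k - c i k + c i j = 0) →
    ∃ b : α → D, (∀ a, E.Reg (W a) (b a)) ∧ ∀ i j, c i j = b j - b i

/-- Cech cocycles of degree two are coboundaries. -/
def C2 : Prop := ∀ c : α → α → α → D, (∀ i j k, E.Reg (W i ⊓ W j ⊓ W k) (c i j k)) →
  (∀ i j k l, c j k l - c i k l + c i j l - c i j k = 0) →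
    ∃ b : α → α → D, (∀ i j, E.Reg (W i ⊓ W j) (b i j)) ∧
      ∀ i j k, c i j k = b j k - b i k + b i j

variable {W} {U : Opens X}

theorem glue1 [Nonempty α] (hW : ∀ a, W a ≤ U) (hc : U ≤ iSup W) (hη : ∀ a, η ∈ W a)
    (h1 : E.C1 W) (q : E.Q.obj.obj (op U)) (hq : ∀ a, ∃ d, E.cls (W a) d = sres _ (hW a) q) :
    ∃ d, E.cls U d = q := by
  choose d hd using hq
  obtain ⟨b, hb, e⟩ := h1 (fun i j => d j - d i) (fun i j => (E.cls_eq (U := W i ⊓ W j) ⟨hη i, hη j⟩ _ _).1 (by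
    rw [← E.cls_res inf_le_right, ← E.cls_res inf_le_left (d i), hd, hd, sres_sres, sres_sres]))
    fun _ _ _ => by abel
  obtain ⟨a₀⟩ := ‹Nonempty α›
  refine ⟨d a₀ - b a₀, s_ext _ W hW hc _ _ fun a => ?_⟩
  rw [cls_res, ← hd, E.cls_eq (hη a), show d a₀ - b a₀ - d a = 0 - b a by
    rw [sub_eq_iff_eq_add.1 (e a a₀)]; abel, ← E.cls_eq (hη a), map_zero, eq_comm]
  exact (E.cls_eq_zero (hη a) _).2 (hb a)

theorem glue2 [Nonempty α] (hW : ∀ a, W a ≤ U) (hc : U ≤ iSup W) (hη : ∀ a, η ∈ W a)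
    (h2 : E.C2 W) (hs : ∀ a b, Function.Surjective (E.cls (W a ⊓ W b)))
    {J R : TopCat.Sheaf AddCommGrpCat.{0} X} {f : E.Q ⟶ J} {g : J ⟶ R} {w : f ≫ g = 0}
    (hT : (ShortComplex.mk f g w).ShortExact) (r : R.obj.obj (op U))
    (hr : ∀ a, ∃ j, sapp g (W a) j = sres _ (hW a) r) : ∃ j, sapp g U j = r := by
  choose j hj using hr
  have h0 : ∀ a b, ∃ l, sapp f (W a ⊓ W b) (E.cls _ l) =
      sres J inf_le_right (j b) - sres J inf_le_left (j a) := fun a b => by
    obtain ⟨c, hc⟩ := sapp_exact hT (U := W a ⊓ W b)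
      (sres J inf_le_right (j b) - sres J inf_le_left (j a)) (by
        change sapp g _ _ = 0
        rw [map_sub, ← sres_sapp, ← sres_sapp, hj, hj, sres_sres, sres_sres, sub_self])
    obtain ⟨l, rfl⟩ := hs a b c
    exact ⟨l, hc⟩
  choose l hl using h0
  have hl' : ∀ a b V (ha : V ≤ W a) (hb : V ≤ W b), sapp f V (E.cls _ (l a b)) =
      sres J hb (j b) - sres J ha (j a) := fun a b V ha hb => by
    rw [← E.cls_res (le_inf ha hb), ← sres_sapp, hl, map_sub, sres_sres, sres_sres]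
  obtain ⟨b, hb, e⟩ := h2 (fun i j k => l j k - l i k + l i j) (fun i j k =>
    (E.cls_eq_zero (U := W i ⊓ W j ⊓ W k) ⟨⟨hη i, hη j⟩, hη k⟩ _).1 (sapp_inj hT _ (by
      change sapp f _ _ = sapp f _ _
      rw [map_zero, map_add, map_sub, map_add, map_sub,
        hl' j k _ (inf_le_left.trans inf_le_right) inf_le_right,
        hl' i k _ (inf_le_left.trans inf_le_left) inf_le_right,
        hl' i j _ (inf_le_left.trans inf_le_left) (inf_le_left.trans inf_le_right)]
      abel))) fun _ _ _ _ => by abel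
  obtain ⟨a₀⟩ := ‹Nonempty α›
  obtain ⟨t, ht⟩ := s_glue J W hW hc
    (fun a => j a - sapp f _ (E.cls _ (l a₀ a - b a₀ a))) fun a a' => by
      have e1 : l a₀ a' - b a₀ a' = l a₀ a - b a₀ a + l a a' - b a a' := by
        rw [← sub_eq_zero, ← neg_eq_zero, ← sub_eq_zero.2 (e a₀ a a')]; abel
      rw [map_sub, map_sub (sres J _), sres_sapp, sres_sapp, cls_res, cls_res, e1,
        map_sub _ _ (b a a'), (E.cls_eq_zero (U := W a ⊓ W a') ⟨hη a, hη a'⟩ _).2 (hb a a'), sub_zero, map_add,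
        map_add, hl]
      abel
  refine ⟨t, s_ext _ W hW hc _ _ fun a => ?_⟩
  rw [sres_sapp, ht, map_sub, hj]
  exact sub_eq_self.2 (sapp_zero (ShortComplex.mk f g w) _ _)

theorem H1 (h : Function.Surjective (E.cls ⊤)) : Subsingleton (Sheaf.H F 1) :=
  @H_one _ _ E.se (gsh_acyclic η 0 D) (E.surj_g h)

theorem H2 (h : ∀ {J R : TopCat.Sheaf AddCommGrpCat.{0} X} {f : E.Q ⟶ J} {g : J ⟶ R}
    {w : f ≫ g = 0}, (ShortComplex.mk f g w).ShortExact → Function.Surjective (sapp g ⊤)) :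
    Subsingleton (Sheaf.H F 2) := by
  have hT : (ShortComplex.mk (Injective.ι E.Q) (cokernel.π _)
      (cokernel.condition _)).ShortExact := { exact := ShortComplex.exact_cokernel _ }
  exact @H_succ _ _ E.se 1 (gsh_acyclic η 1 D)
    (@H_one _ _ hT (H_inj _ (Injective.injective_under E.Q) 0) (h hT))

/-- The first cohomology as a quotient. -/
theorem exists_delta (hη : η ∈ (⊤ : Opens X)) : ∃ δ : E.Q.obj.obj (op ⊤) →+ Sheaf.H F 1,
    Function.Surjective δ ∧ ∀ q, δ q = 0 ↔ ∃ d, E.cls ⊤ d = q :=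
  ⟨delta E.se, @delta_surj _ _ E.se (gsh_acyclic η 0 D), fun q => (delta_eq_zero E.se q).trans
    ⟨fun ⟨s, hs⟩ => ⟨(s : PLift (η ∈ (⊤ : Opens X)) → D) ⟨hη⟩, hs⟩, fun ⟨_, e⟩ => ⟨_, e⟩⟩⟩

end Emb

end

end Pool.Agent.Lib.MP_dd9c4c_nt.Sc
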