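import Mathlib

/-! The skyscraper sheaf at a point has no higher cohomology. -/

set_option autoImplicit false

namespace Pool.Agent.Lib.MP_dd9c4c_nt.Sc

open CategoryTheory Opposite TopologicalSpace Limits

noncomputable section

variable {X : TopCat.{0}}

/-- Restriction of a section. -/
def sres (F : TopCat.Sheaf AddCommGrpCat.{0} X) {U V : Opens X} (h : V ≤ U) :
    F.obj.obj (op U) →+ F.obj.obj (op V) := (F.obj.map (homOfLE h).op).hom

/-- A morphism of sheaves on sections. -/
def sapp {F G : TopCat.Sheaf AddCommGrpCat.{0} X} (f : F ⟶ G) (U : Opens X) :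
    F.obj.obj (op U) →+ G.obj.obj (op U) := (f.hom.app (op U)).hom

theorem sres_sres (F : TopCat.Sheaf AddCommGrpCat.{0} X) {U V W : Opens X} (h : V ≤ U)
    (h' : W ≤ V) (s : F.obj.obj (op U)) : sres F h' (sres F h s) = sres F (h'.trans h) s :=
  (congr($(F.obj.map_comp (homOfLE h).op (homOfLE h').op) s)).symm

theorem sres_sapp {F G : TopCat.Sheaf AddCommGrpCat.{0} X} (f : F ⟶ G) {U V : Opens X}
    (h : V ≤ U) (s : F.obj.obj (op U)) : sres G h (sapp f U s) = sapp f V (sres F h s) :=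
  congr($(f.hom.naturality (homOfLE h).op) s).symm

theorem s_hom_ext {F G : TopCat.Sheaf AddCommGrpCat.{0} X} {f g : F ⟶ G}
    (h : ∀ U a, sapp f U a = sapp g U a) : f = g :=
  ObjectProperty.hom_ext _ (NatTrans.ext (funext fun U => AddCommGrpCat.ext (h U.unop)))

theorem s_ext (F : TopCat.Sheaf AddCommGrpCat.{0} X) {U : Opens X} {α : Type} (W : α → Opens X)
    (hW : ∀ a, W a ≤ U) (hc : U ≤ iSup W) (s t : F.obj.obj (op U))
    (h : ∀ a, sres F (hW a) s = sres F (hW a) t) : s = t :=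
  F.eq_of_locally_eq' W U (fun a => homOfLE (hW a)) hc s t h

theorem s_glue (F : TopCat.Sheaf AddCommGrpCat.{0} X) {U : Opens X} {α : Type} (W : α → Opens X)
    (hW : ∀ a, W a ≤ U) (hc : U ≤ iSup W) (s : ∀ a, F.obj.obj (op (W a)))
    (hs : ∀ a b, sres F (inf_le_left : W a ⊓ W b ≤ W a) (s a) = sres F inf_le_right (s b)) :
    ∃ t : F.obj.obj (op U), ∀ a, sres F (hW a) t = s a := by
  obtain ⟨t, ht, -⟩ := F.existsUnique_gluing' W U (fun a => homOfLE (hW a)) hc s hs
  exact ⟨t, ht⟩

section SES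

variable {S : ShortComplex (TopCat.Sheaf AddCommGrpCat.{0} X)}

theorem sapp_zero (S : ShortComplex (TopCat.Sheaf AddCommGrpCat.{0} X)) (U : Opens X)
    (s : S.X₁.obj.obj (op U)) : sapp S.g U (sapp S.f U s) = 0 := congr(($(S.zero)).hom.app _ s)

theorem sapp_exact (hS : S.ShortExact) {U : Opens X} (s : S.X₂.obj.obj (op U))
    (h : sapp S.g U s = 0) : ∃ t, sapp S.f U t = s :=
  TopCat.Sheaf.sections_exact_of_left_exact hS.exact hS.mono_f s h

theorem sapp_inj (hS : S.ShortExact) (U : Opens X) : Function.Injective (sapp S.f U) := by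
  have := hS.mono_f
  have : Mono S.f.hom := (TopCat.Sheaf.forget _ _).map_mono S.f
  exact (AddCommGrpCat.mono_iff_injective _).1 (inferInstanceAs (Mono (S.f.hom.app (op U))))

theorem sapp_loc (hS : S.ShortExact) {U : Opens X} (q : S.X₃.obj.obj (op U)) {x : X}
    (hx : x ∈ U) : ∃ (W : Opens X) (h : W ≤ U), x ∈ W ∧ ∃ s, sapp S.g W s = sres _ h q := by
  obtain ⟨W, h, hs, hW⟩ := (TopCat.Presheaf.isLocallySurjective_iff S.g.hom).1
    ((TopCat.Sheaf.isLocallySurjective_iff_epi S.g).2 hS.epi_g) U q x hx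
  exact ⟨W, h, hW, hs⟩

/-- The connecting map on global sections. -/
def delta (hS : S.ShortExact) : S.X₃.obj.obj (op ⊤) →+ Sheaf.H S.X₁ 1 :=
  (hS.extClass.postcomp _ (zero_add 1)).comp
    (Sheaf.H.equiv₀ S.X₃ isTerminalTop).symm.toAddMonoidHom

theorem delta_surj (hS : S.ShortExact) [Subsingleton (Sheaf.H S.X₂ 1)] :
    Function.Surjective (delta hS) := fun x => by
  obtain ⟨y, hy⟩ := Abelian.Ext.covariant_sequence_exact₁ _ hS x
    (Subsingleton.elim (α := Sheaf.H S.X₂ 1) _ _) (zero_add 1)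
  refine ⟨Sheaf.H.equiv₀ S.X₃ isTerminalTop y, ?_⟩
  rw [← hy]
  exact congrArg (fun z => Abelian.Ext.comp z hS.extClass (zero_add 1))
    ((Sheaf.H.equiv₀ S.X₃ isTerminalTop).symm_apply_apply y)

theorem delta_eq_zero (hS : S.ShortExact) (q : S.X₃.obj.obj (op ⊤)) :
    delta hS q = 0 ↔ ∃ s, sapp S.g ⊤ s = q := by
  constructor
  · intro h
    obtain ⟨x, hx⟩ := Abelian.Ext.covariant_sequence_exact₃ _ hS
      ((Sheaf.H.equiv₀ S.X₃ isTerminalTop).symm q) (zero_add 1) h
    exact ⟨_, (Sheaf.H.equiv₀_naturality isTerminalTop S.g x).trans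
      ((congrArg (Sheaf.H.equiv₀ S.X₃ isTerminalTop) hx).trans (AddEquiv.apply_symm_apply _ q))⟩
  · rintro ⟨s, rfl⟩
    have := Sheaf.H.equiv₀_symm_naturality isTerminalTop S.g s
    refine (congrArg (fun z => Abelian.Ext.comp z hS.extClass (zero_add 1)) this.symm).trans ?_
    refine (Abelian.Ext.comp_assoc_of_second_deg_zero _ _ _ _).trans ?_
    exact (congrArg (fun z => Abelian.Ext.comp _ z _) hS.comp_extClass).trans
      (Abelian.Ext.comp_zero _ _ _ _ _)

theorem H_one (hS : S.ShortExact) [Subsingleton (Sheaf.H S.X₂ 1)]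
    (h : Function.Surjective (sapp S.g ⊤)) : Subsingleton (Sheaf.H S.X₁ 1) :=
  subsingleton_of_forall_eq 0 fun x => by
    obtain ⟨q, rfl⟩ := delta_surj hS x
    exact (delta_eq_zero hS q).2 (h q)

theorem H_succ (hS : S.ShortExact) (n : ℕ) [Subsingleton (Sheaf.H S.X₂ (n + 1))]
    [Subsingleton (Sheaf.H S.X₃ n)] : Subsingleton (Sheaf.H S.X₁ (n + 1)) :=
  subsingleton_of_forall_eq 0 fun x => by
    obtain ⟨y, rfl⟩ := Abelian.Ext.covariant_sequence_exact₁ _ hS x
      (Subsingleton.elim (α := Sheaf.H S.X₂ (n + 1)) _ _) rfl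
    obtain rfl := Subsingleton.elim (α := Sheaf.H S.X₃ n) y 0
    exact Abelian.Ext.zero_comp _ _ _ _ _

end SES

theorem H_inj (F : Sheaf (Opens.grothendieckTopology X) AddCommGrpCat.{0}) (h : Injective F)
    (n : ℕ) : Subsingleton (Sheaf.H F (n + 1)) :=
  Abelian.Ext.subsingleton_of_injective _ F n

variable (η : X)

/-- The skyscraper sheaf at `η`. -/
def gsh (D : Type) [AddCommGroup D] : TopCat.Sheaf AddCommGrpCat.{0} X :=
  ⟨{ obj V := .of (PLift (η ∈ V.unop) → D)
     map i := AddCommGrpCat.ofHom (AddMonoidHom.mk' (fun g h => g ⟨i.unop.le h.down⟩)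
       fun _ _ => rfl) }, (TopCat.Presheaf.isSheaf_iff_isSheafUniqueGluing _).2 fun ι W s hs => by
    choose i hi using fun x : PLift (η ∈ iSup W) => Opens.mem_iSup.1 x.down
    refine ⟨fun x => s (i x) ⟨hi x⟩, fun j => funext fun x => ?_, fun t ht => funext fun x => ?_⟩
    · exact congrFun (hs _ j) ⟨hi ⟨le_iSup W j x.down⟩, x.down⟩
    · exact congrFun (ht (i x)) ⟨hi x⟩⟩

/-- Morphisms into a skyscraper sheaf. -/
def toG {F : TopCat.Sheaf AddCommGrpCat.{0} X} {D : Type} [AddCommGroup D]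
    (γ : ∀ U : Opens X, η ∈ U → F.obj.obj (op U) →+ D)
    (res : ∀ {U V : Opens X} (i : V ≤ U) (h : η ∈ V) a, γ V h (sres F i a) = γ U (i h) a) :
    F ⟶ gsh η D :=
  ⟨{ app V := AddCommGrpCat.ofHom (AddMonoidHom.mk'
        (fun a (h : PLift (η ∈ V.unop)) => γ V.unop h.down a) fun a b => funext fun _ => map_add _ a b)
     naturality V V' i := by
        ext a
        exact funext fun h => res i.unop.le h.down a }⟩

theorem injective_gsh (I : AddCommGrpCat.{0}) [Injective I] : Injective (gsh η I) where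
  factors {A B} g f _ := by
    let c : Cocone ((OpenNhds.inclusion η).op ⋙ A.obj) :=
      { pt := I
        ι := { app U := AddCommGrpCat.ofHom (AddMonoidHom.mk'
                  (fun a => (sapp g U.unop.1 a : PLift (η ∈ U.unop.1) → I) ⟨U.unop.2⟩)
                  fun a b => congrFun (map_add (sapp g U.unop.1) a b) _)
               naturality U V i := by
                 ext a
                 exact congrFun (sres_sapp g (leOfHom i.unop) a).symm ⟨V.unop.2⟩ } }
    let g' : (TopCat.Presheaf.stalkFunctor AddCommGrpCat η).obj A.obj ⟶ I := colimit.desc _ c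
    have hg : ∀ U (h : η ∈ U) a, g' (A.presheaf.germ U η h a) =
        (sapp g U a : PLift (η ∈ U) → I) ⟨h⟩ := fun U h a =>
      ConcreteCategory.congr_hom (colimit.ι_desc c (op (⟨U, h⟩ : OpenNhds η))) a
    have hm : Mono ((TopCat.Presheaf.stalkFunctor AddCommGrpCat η).map f.hom) :=
      (TopCat.Sheaf.forget AddCommGrpCat X ⋙ TopCat.Presheaf.stalkFunctor _ η).map_mono f
    obtain ⟨h', hh⟩ := @Injective.factors _ _ _ _ _ _ g'
      ((TopCat.Presheaf.stalkFunctor AddCommGrpCat η).map f.hom) hm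
    refine ⟨toG η (fun U h => (B.presheaf.germ U η h ≫ h').hom) fun i h a =>
      congrArg h' (B.presheaf.germ_res_apply (homOfLE i) η h a), ?_⟩
    refine s_hom_ext fun U a => funext fun h => Eq.trans ?_ (hg U h.down a)
    rw [← hh]
    exact congrArg h' (TopCat.Presheaf.stalkFunctor_map_germ_apply U η h.down f.hom a).symm

/-- Functoriality of the skyscraper sheaf. -/
def gmap {D E : Type} [AddCommGroup D] [AddCommGroup E] (f : D →+ E) : gsh η D ⟶ gsh η E :=
  toG η (fun _ h => f.comp (Pi.evalAddMonoidHom _ ⟨h⟩)) fun _ _ _ => rfl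

theorem shortExact_gsh {D I : Type} [AddCommGroup D] [AddCommGroup I] (f : D →+ I)
    (hf : Function.Injective f) : ∃ w, (ShortComplex.mk (gmap η f)
      (gmap η (QuotientAddGroup.mk' f.range)) w).ShortExact ∧
      Function.Surjective (sapp (gmap η (QuotientAddGroup.mk' f.range)) ⊤) := by
  have hs : ∀ U, Function.Surjective (sapp (gmap η (QuotientAddGroup.mk' f.range)) U) :=
    fun U q => ⟨fun h => (q h).out, funext fun h => QuotientAddGroup.out_eq' (q h)⟩
  have w : gmap η f ≫ gmap η (QuotientAddGroup.mk' f.range) = 0 :=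
    s_hom_ext fun U a => funext fun h => (QuotientAddGroup.eq_zero_iff _).2 ⟨_, rfl⟩
  have : Mono (gmap η f) := by
    have : ∀ V, Mono ((gmap η f).hom.app V) := fun V =>
      (AddCommGrpCat.mono_iff_injective _).2 fun a b e => funext fun h => hf (congrFun e h)
    have : Mono (gmap η f).hom := NatTrans.mono_of_mono_app _
    exact (TopCat.Sheaf.forget _ _).mono_of_mono_map this
  have : Epi (gmap η (QuotientAddGroup.mk' f.range)) := by
    have : ∀ V, Epi ((gmap η (QuotientAddGroup.mk' f.range)).hom.app V) := fun V =>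
      (AddCommGrpCat.epi_iff_surjective _).2 (hs V.unop)
    have : Epi (gmap η (QuotientAddGroup.mk' f.range)).hom := NatTrans.epi_of_epi_app _
    exact (TopCat.Sheaf.forget _ _).epi_of_epi_map this
  refine ⟨w, { exact := ShortComplex.exact_of_f_is_kernel _ ?_ }, hs ⊤⟩
  refine KernelFork.IsLimit.ofι' _ _ fun {A} k hk => ?_
  have hm : ∀ U (h : η ∈ U) a, (sapp k U a : PLift (η ∈ U) → I) ⟨h⟩ ∈ f.range := fun U h a =>
    (QuotientAddGroup.eq_zero_iff _).1 (congrFun congr(($hk).hom.app (op U) a) ⟨h⟩)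
  choose l hl using hm
  refine ⟨toG η (fun U h => AddMonoidHom.mk' (l U h) fun a b => hf ?_) fun i h a => hf ?_, ?_⟩
  · rw [map_add, hl, hl, hl, map_add]
    rfl
  · exact (hl _ _ _).trans ((congrFun (sres_sapp k i a).symm ⟨h⟩).trans (hl _ _ _).symm)
  · exact s_hom_ext fun U a => funext fun h => hl U h.down a

theorem gsh_acyclic (n : ℕ) (D : Type) [AddCommGroup D] :
    Subsingleton (Sheaf.H (gsh η D) (n + 1)) := by
  have key : ∀ (D : Type) [AddCommGroup D], ∃ (I : AddCommGrpCat.{0}) (_ : Injective I)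
      (f : D →+ I), Function.Injective f := fun D _ =>
    ⟨_, inferInstance, (Injective.ι (AddCommGrpCat.of D)).hom,
      (AddCommGrpCat.mono_iff_injective _).1 inferInstance⟩
  induction n generalizing D with
  | zero =>
    obtain ⟨I, _, f, hf⟩ := key D
    obtain ⟨w, hS, hs⟩ := shortExact_gsh η f hf
    exact @H_one _ _ hS (H_inj _ (injective_gsh η I) 0) hs
  | succ n ih =>
    obtain ⟨I, _, f, hf⟩ := key D
    obtain ⟨w, hS, -⟩ := shortExact_gsh η f hf
    exact @H_succ _ _ hS (n + 1) (H_inj _ (injective_gsh η I) (n + 1)) (ih (I ⧸ f.range))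

end

end Pool.Agent.Lib.MP_dd9c4c_nt.Sc
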