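import Pool.Agent.Lib.MP_dd9c4c_nt.Sc.Var

/-! Frames of the canonical sheaf. -/

set_option autoImplicit false

namespace Pool.Agent.Lib.MP_dd9c4c_nt.Sc

theorem mem_span_transport {A B M N : Type} [Semiring A] [Semiring B] [AddCommMonoid M]
    [AddCommMonoid N] [Module A M] [Module B N] {ρ : A → B} (hρ : Function.Surjective ρ)
    {Ψ : M →+ N} (hΨ : Function.Injective Ψ) (hc : ∀ a m, Ψ (a • m) = ρ a • Ψ m) (s : Set M)
    (x : M) : x ∈ Submodule.span A s ↔ Ψ x ∈ Submodule.span B (Ψ '' s) := by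
  constructor
  · intro hx
    induction hx using Submodule.span_induction with
    | mem y hy => exact Submodule.subset_span ⟨y, hy, rfl⟩
    | zero => rw [map_zero]; exact zero_mem _
    | add y z _ _ hy hz => rw [map_add]; exact add_mem hy hz
    | smul a y _ hy => rw [hc]; exact Submodule.smul_mem _ _ hy
  · intro hx
    have key : ∀ z ∈ Submodule.span B (Ψ '' s), ∃ y ∈ Submodule.span A s, Ψ y = z := by
      intro z hz
      induction hz using Submodule.span_induction with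
      | mem z hz =>
        obtain ⟨y, hy, rfl⟩ := hz
        exact ⟨y, Submodule.subset_span hy, rfl⟩
      | zero => exact ⟨0, zero_mem _, map_zero _⟩
      | add y z _ _ hy hz =>
        obtain ⟨y, hy, rfl⟩ := hy
        obtain ⟨z, hz, rfl⟩ := hz
        exact ⟨y + z, add_mem hy hz, map_add _ _ _⟩
      | smul b y _ hy =>
        obtain ⟨y, hy, rfl⟩ := hy
        obtain ⟨a, rfl⟩ := hρ b
        exact ⟨a • y, Submodule.smul_mem _ _ hy, hc a y⟩
    obtain ⟨y, hy, e⟩ := key _ hx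
    exact hΨ e ▸ hy

theorem finrank_top_power (F V : Type) [Field F] [AddCommGroup V] [Module F V] :
    Module.finrank F (⋀[F]^(Module.finrank F V) V) = 1 := by
  by_cases h : Module.Finite F V
  · rw [exteriorPower.finrank_eq, Nat.choose_self]
  · rw [Module.finrank_of_not_finite h, (exteriorPower.zeroEquiv F V).finrank_eq,
      Module.finrank_self]

variable {K L L' ι : Type} [Field K] [Field L] [Algebra K L] [Field L'] [Algebra K L']

theorem exists_omega_map (φ : L' →+* L) (hφ : ∀ c, φ (algebraMap K L' c) = algebraMap K L c) :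
    ∃ T : Ω[L'⁄K] →+ Ω[L⁄K], (∀ a w, T (a • w) = φ a • T w) ∧
      ∀ a, T (KaehlerDifferential.D K L' a) = KaehlerDifferential.D K L (φ a) := by
  let := φ.toAlgebra
  have : IsScalarTower K L' L := IsScalarTower.of_algebraMap_eq fun c => (hφ c).symm
  refine ⟨(KaehlerDifferential.map K K L' L).toAddMonoidHom, fun a w => ?_, fun a =>
    KaehlerDifferential.map_D K K L' L a⟩
  exact ((KaehlerDifferential.map K K L' L).map_smul a w).trans (algebraMap_smul L a _).symm

theorem omega_left_inv (φ : L' ≃+* L) {T : Ω[L'⁄K] →+ Ω[L⁄K]} {T' : Ω[L⁄K] →+ Ω[L'⁄K]}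
    (h1 : ∀ a w, T (a • w) = φ a • T w)
    (h2 : ∀ a, T (KaehlerDifferential.D K L' a) = KaehlerDifferential.D K L (φ a))
    (h3 : ∀ a w, T' (a • w) = φ.symm a • T' w)
    (h4 : ∀ a, T' (KaehlerDifferential.D K L a) = KaehlerDifferential.D K L' (φ.symm a))
    (w : Ω[L'⁄K]) : T' (T w) = w := by
  have hw : w ∈ Submodule.span L' (Set.range (KaehlerDifferential.D K L')) :=
    KaehlerDifferential.span_range_derivation K L' ▸ Submodule.mem_top
  induction hw using Submodule.span_induction with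
  | mem y hy =>
    obtain ⟨a, rfl⟩ := hy
    rw [h2, h4, RingEquiv.symm_apply_apply]
  | zero => rw [map_zero, map_zero]
  | add y z _ _ hy hz => rw [map_add, map_add, hy, hz]
  | smul a y _ hy => rw [h1, h3, hy, RingEquiv.symm_apply_apply]

theorem exists_alt {V V' : Type} [AddCommGroup V] [Module L V] [AddCommGroup V'] [Module L' V']
    (φ : L' ≃+* L) {T : V' →+ V} (h1 : ∀ a w, T (a • w) = φ a • T w) {n : ℕ}
    (Δ : V [⋀^Fin n]→ₗ[L] L) :
    ∃ Λ : ⋀[L']^n V' →ₗ[L'] L', ∀ v, φ (Λ (exteriorPower.ιMulti L' n v)) = Δ fun k => T (v k) := by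
  let Δ' : V' [⋀^Fin n]→ₗ[L'] L' :=
    { toFun := fun v => φ.symm (Δ (T ∘ v))
      map_update_add' := fun v i a b => by
        simp only [Function.comp_update, map_add, Δ.map_update_add]
      map_update_smul' := fun v i a b => by
        simp only [Function.comp_update, h1, Δ.map_update_smul, smul_eq_mul, map_mul,
          RingEquiv.symm_apply_apply]
      map_eq_zero_of_eq' := fun v i j e hij => by
        have : Δ (T ∘ v) = 0 := Δ.map_eq_zero_of_eq _ (congrArg T e) hij
        simp only [this, map_zero] }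
  refine ⟨exteriorPower.alternatingMapLinearEquiv Δ', fun v => ?_⟩
  rw [exteriorPower.alternatingMapLinearEquiv_apply_ιMulti]
  exact φ.apply_symm_apply _

theorem topFrames [Fintype ι] [Nonempty ι] {ξ : ι → L} (h : Hyp K ξ) (φ : L' ≃+* L)
    (hφ : ∀ c, φ (algebraMap K L' c) = algebraMap K L c) (R : ι → Subring L')
    (hR : ∀ i z, φ z ∈ chart K ξ i ↔ z ∈ R i) (r : ι → ι → L')
    (hr : ∀ i j, φ (r i j) = ξ j / ξ i) : TopFrames K R r := by
  obtain ⟨T, h1, h2⟩ := exists_omega_map (K := K) φ.toRingHom hφ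
  obtain ⟨T', h3, h4⟩ := exists_omega_map (K := K) φ.symm.toRingHom fun c =>
    φ.symm_apply_eq.2 (hφ c).symm
  let j : Ω[L'⁄K] ≃+ Ω[L⁄K] :=
    { T with
      invFun := T'
      left_inv := omega_left_inv φ h1 h2 h3 h4
      right_inv := omega_left_inv φ.symm h3 h4 h1 h2 }
  have hn : Module.finrank L' Ω[L'⁄K] = Module.finrank L Ω[L⁄K] :=
    congrArg Cardinal.toNat (rank_eq_of_equiv_equiv φ j φ.bijective h1)
  have hc := h.canon
  rw [← hn] at hc
  obtain ⟨Δ, hΔ⟩ := hc
  obtain ⟨Λ, hΛ⟩ := exists_alt φ h1 Δ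
  let Ψ : ⋀[L']^(Module.finrank L' Ω[L'⁄K]) Ω[L'⁄K] →+ L :=
    φ.toAddMonoidHom.comp Λ.toAddMonoidHom
  have hΨ : ∀ x, Ψ x = φ (Λ x) := fun _ => rfl
  have him : ∀ i, Ψ '' (Set.range fun a : Fin (Module.finrank L' Ω[L'⁄K]) → R i =>
      exteriorPower.ιMulti L' _ fun k => KaehlerDifferential.D K L' (a k)) =
      {z | ∃ a : Fin (Module.finrank L' Ω[L'⁄K]) → L, (∀ k, a k ∈ chart K ξ i) ∧
        z = Δ fun k => KaehlerDifferential.D K L (a k)} := fun i => by
    ext z
    constructor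
    · rintro ⟨_, ⟨a, rfl⟩, rfl⟩
      refine ⟨fun k => φ (a k), fun k => (hR i _).2 (a k).2, ?_⟩
      rw [hΨ, hΛ]
      exact congrArg Δ (funext fun k => h2 _)
    · rintro ⟨a, ha, rfl⟩
      refine ⟨_, ⟨fun k => ⟨φ.symm (a k), (hR i _).1 (by simpa using ha k)⟩, rfl⟩, ?_⟩
      rw [hΨ, hΛ]
      exact congrArg Δ (funext fun k => (h2 _).trans (congrArg _ (φ.apply_symm_apply _)))
  have h0 : Λ ≠ 0 := by
    rintro rfl
    obtain ⟨i⟩ := ‹Nonempty ι›
    have h5 : (ξ i)⁻¹ ∈ _ := (hΔ i).ge (Submodule.mem_span_singleton_self _)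
    rw [← him i, Submodule.span_eq_bot.2, Submodule.mem_bot] at h5
    · exact inv_ne_zero (h.ne i) h5
    · rintro _ ⟨x, -, rfl⟩
      rw [hΨ, LinearMap.zero_apply, map_zero]
  have := isSimpleModule_iff_finrank_eq_one.2 (finrank_top_power L' Ω[L'⁄K])
  have hb := LinearMap.bijective_of_ne_zero h0
  have hinj : Function.Injective Ψ := φ.injective.comp hb.1
  choose w hw using fun i => hb.2 (φ.symm (ξ i)⁻¹)
  have hw' : ∀ i, Ψ (w i) = (ξ i)⁻¹ := fun i => by rw [hΨ, hw, RingEquiv.apply_symm_apply]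
  have hs : ∀ a x, Ψ (a • x) = φ a * Ψ x := fun (a : L') x => by
    rw [hΨ, hΨ, map_smul, smul_eq_mul, map_mul]
  refine ⟨w, fun i j => hinj ?_, fun i => ?_⟩
  · rw [hs, hw', hw', hr, div_mul_eq_mul_div, mul_inv_cancel₀ (h.ne j), one_div]
  · let ρ : R i → chart K ξ i := fun a => ⟨φ a, (hR i _).2 a.2⟩
    have hρ : Function.Surjective ρ := fun b =>
      ⟨⟨φ.symm b, (hR i _).1 (by simp)⟩, Subtype.ext (φ.apply_symm_apply _)⟩
    ext x
    rw [mem_span_transport hρ hinj fun a m => hs a m, mem_span_transport hρ hinj fun a m => hs a m,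
      him, hΔ, Set.image_singleton, hw']

end Pool.Agent.Lib.MP_dd9c4c_nt.Sc
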