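import Pool.Agent.Lib.MP_dd9c4c_nt.Defs

/-! The notions used in the statement about schemes. -/

set_option autoImplicit false

namespace Pool.Agent.Lib.MP_dd9c4c_nt.Sc

open CategoryTheory AlgebraicGeometry

noncomputable section

/-- The structure sheaf as a sheaf of abelian groups. -/
def addSheaf (V : Scheme.{0}) : TopCat.Sheaf AddCommGrpCat.{0} V :=
  (sheafCompose _ (forget₂ CommRingCat RingCat ⋙ forget₂ RingCat AddCommGrpCat)).obj V.sheaf

/-- The sheaf of invertible functions. -/
def unitSheaf (V : Scheme.{0}) : TopCat.Sheaf AddCommGrpCat.{0} V :=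
  (sheafCompose _
    (forget₂ CommRingCat CommMonCat ⋙ CommMonCat.units ⋙
      commGroupAddCommGroupEquivalence.functor)).obj V.sheaf

theorem hasExt (X : TopCat.{0}) :
    HasExt.{0} (Sheaf (Opens.grothendieckTopology X) AddCommGrpCat.{0}) := inferInstance

/-- The vanishing of the cohomology of a sheaf of abelian groups in degree `n`. -/
def Vanish {X : TopCat.{0}} (F : TopCat.Sheaf AddCommGrpCat.{0} X) (n : ℕ) : Prop :=
  Subsingleton (@Sheaf.H _ _ _ F _ (hasExt X) n)

/-- The rank of the first cohomology of a sheaf of abelian groups. -/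
def rankH1 {X : TopCat.{0}} (F : TopCat.Sheaf AddCommGrpCat.{0} X) : Cardinal :=
  Module.rank ℤ (@Sheaf.H _ _ _ F _ (hasExt X) 1)

/-- The value of a morphism of rings. -/
def ap {A B : CommRingCat.{0}} (φ : A ⟶ B) (a : A) : B := φ.hom a

/-- The module over `R` spanned by `T` is spanned by `w`. -/
def SpannedBy {L N : Type} [Field L] [AddCommGroup N] [Module L N] (R : Subring L) (T : Set N)
    (w : N) : Prop :=
  Submodule.span R T = Submodule.span R {w}

/-- The top forms `d a₁ ∧ ⋯ ∧ d aₙ` over the rings `R i` inside the field `L` are spanned by forms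
`w i` with `w i = r i j • w j`. -/
def Frames {L M ι : Type} [Field L] [AddCommGroup M] [Module L M] (d : L → M)
    (R : ι → Subring L) (r : ι → ι → L) : Prop :=
  ∃ w : ι → ⋀[L]^(Module.finrank L M) M, (∀ i j, w i = r i j • w j) ∧ ∀ i,
    SpannedBy (R i) (Set.range fun a : Fin (Module.finrank L M) → R i =>
      exteriorPower.ιMulti L _ fun k => d (a k)) (w i)

/-- `Frames` for the Kähler differentials of `L` over `K`. -/
def TopFrames (K : Type) {L ι : Type} [Field K] [Field L] [Algebra K L] (R : ι → Subring L)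
    (r : ι → ι → L) : Prop :=
  Frames (KaehlerDifferential.D K L) R r

/-- The function field of an integral scheme over `K` as a `K`-algebra. -/
@[reducible] def constAlgebra {K : Type} [Field K] {V : Scheme.{0}} [IsIntegral V]
    (f : V ⟶ Spec (.of K)) : Algebra K V.functionField :=
  RingHom.toAlgebra ((Scheme.ΓSpecIso (.of K)).inv ≫ f.appTop ≫
    V.presheaf.germ ⊤ (genericPoint V) trivial).hom

/-- The canonical sheaf of `V` has frames `w i` on the open sets `U i` with
`w i = g i j • w j`. -/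
def CanonFrames {K ι : Type} [Field K] {V : Scheme.{0}} [IsIntegral V] (f : V ⟶ Spec (.of K))
    (U : ι → V.Opens) (g : ∀ i, ι → Γ(V, U i)) : Prop :=
  ∃ _ : ∀ i, Nonempty (U i), letI := constAlgebra f
    TopFrames K (L := V.functionField) (fun i => (V.germToFunctionField (U i)).hom.range)
      fun i j => (V.germToFunctionField (U i)).hom (g i j)

variable {K S ι : Type} [Field K] [CommRing S] [Algebra K S] (𝒜 : ℕ → Submodule K S)
  [GradedAlgebra 𝒜] (x : ι → S)

/-- The structure morphism of `Proj` of a graded `K`-algebra. -/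
def strMap : Proj 𝒜 ⟶ Spec (.of K) :=
  Proj.toSpecZero 𝒜 ≫ Spec.map (CommRingCat.ofHom (algebraMap K (𝒜 0)))

/-- The function `x j / x i` on the chart `x i ≠ 0`. -/
def ratio (hx : ∀ i, x i ∈ 𝒜 1) (i j : ι) : Γ(Proj 𝒜, Proj.basicOpen 𝒜 (x i)) :=
  ap (Proj.awayToSection 𝒜 (x i)) (HomogeneousLocalization.Away.mk 𝒜 (hx i) 1 (x j) (hx j))

/-- The canonical sheaf is `O(-1)`: on the chart `x i ≠ 0` it has a frame `w i`, and
`w i = (x j / x i) • w j`. -/
def Anticanonical (hx : ∀ i, x i ∈ 𝒜 1) [IsIntegral (Proj 𝒜)] : Prop :=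
  CanonFrames (strMap 𝒜) (fun i => Proj.basicOpen 𝒜 (x i)) (ratio 𝒜 x hx)

/-- Rational points. -/
def Pt : Type := {p : Spec (.of K) ⟶ Proj 𝒜 // p ≫ strMap 𝒜 = 𝟙 _}

variable {𝒜}

/-- The point of the scheme below a rational point. -/
def Pt.pt (p : Pt 𝒜) : Proj 𝒜 := p.1 (IsLocalRing.closedPoint K)

/-- `y` are homogeneous coordinates of `p`. -/
def Coord (p : Pt 𝒜) (y : ι → K) : Prop :=
  y ≠ 0 ∧ ∀ i j, y i • x j - y j • x i ∈ p.pt.asHomogeneousIdeal

/-- Height of a rational point over `K = F(T)`. -/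
def ht (F : Type) [Field F] [Algebra (Polynomial F) K] (p : Pt 𝒜) : ℕ :=
  sInf {n | ∃ P : ι → Polynomial F,
    Coord x p (fun i => algebraMap (Polynomial F) K (P i)) ∧ ∀ i, (P i).natDegree ≤ n}

end

end Pool.Agent.Lib.MP_dd9c4c_nt.Sc
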