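import Pool.Agent.Lib.MP_dd9c4c_nt.Sc.Coh

/-! Cartier divisors as sections of the quotient of the constant sheaf by the units. -/

set_option autoImplicit false

namespace Pool.Agent.Lib.MP_dd9c4c_nt.Sc

open CategoryTheory AlgebraicGeometry Opposite TopologicalSpace
open Pool.Agent.Lib.MP_cd184e_ag.B

noncomputable section

variable {L : Type} [Field L] {Y : Scheme.{0}} [IsIntegral Y] (φ : Y.functionField ≃+* L)

/-- The sheaf of units inside the constant sheaf. -/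
def embMul : Emb (X := Y) (genericPoint Y) (unitSheaf Y) (Additive Lˣ) where
  γ U h := (MonoidHom.toAdditive (Units.map (val φ U h).toMonoidHom) :
    Additive Γ(Y, U)ˣ →+ Additive Lˣ)
  res i h a := Units.ext (val_res φ i h (Additive.toMul (α := Γ(Y, _)ˣ) a).1)
  inj U h _ _ e := Units.ext (val_inj φ U h (congrArg Units.val e))
  gen := gen_of_mem

/-- The rational function `z` is regular on `U`. -/
abbrev Rg (U : Y.Opens) (z : L) : Prop := (embAdd φ).Reg U z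

variable {φ} {U V : Y.Opens}

theorem Rg.mul {z w : L} (h : Rg φ U z) (h' : Rg φ U w) : Rg φ U (z * w) :=
  (reg_add φ h.1).2 (mul_mem ((reg_add φ h.1).1 h) ((reg_add φ h.1).1 h'))

theorem Rg.add {z w : L} (h : Rg φ U z) (h' : Rg φ U w) : Rg φ U (z + w) :=
  (reg_add φ h.1).2 (add_mem ((reg_add φ h.1).1 h) ((reg_add φ h.1).1 h'))

theorem Rg.zero (h : genericPoint Y ∈ U) : Rg φ U 0 := (reg_add φ h).2 (zero_mem _)

theorem Rg.one (h : genericPoint Y ∈ U) : Rg φ U 1 := (reg_add φ h).2 (one_mem _)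

theorem Rg.res {z : L} (h : Rg φ U z) (i : V ≤ U) (hV : genericPoint Y ∈ V) : Rg φ V z := by
  obtain ⟨_, a, rfl⟩ := h
  exact ⟨hV, rres i a, val_res φ i hV a⟩

theorem Rg.loc {z : L} (hU : genericPoint Y ∈ U)
    (h : ∀ x ∈ U, ∃ V : Y.Opens, x ∈ V ∧ Rg φ V z) : Rg φ U z := by
  choose V hV hz using fun x : U => h x.1 x.2
  rw [Rg, ← Emb.cls_eq_zero _ hU]
  refine s_ext _ (fun x => U ⊓ V x) (fun _ => inf_le_left)
    (fun x hx => Opens.mem_iSup.2 ⟨⟨x, hx⟩, hx, hV _⟩) _ _ fun x => ?_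
  have h1 : genericPoint Y ∈ U ⊓ V x := ⟨hU, (hz x).1⟩
  rw [Emb.cls_res, map_zero, Emb.cls_eq_zero _ h1]
  exact (hz x).res inf_le_right h1

theorem reg_mul (h : genericPoint Y ∈ U) (d : Lˣ) :
    (embMul φ).Reg U (Additive.ofMul d) ↔ Rg φ U d ∧ Rg φ U (d : L)⁻¹ := by
  constructor
  · rintro ⟨_, a, e⟩
    obtain rfl : Units.map (val φ U h).toMonoidHom (Additive.toMul (α := Γ(Y, U)ˣ) a) = d := e
    exact ⟨⟨h, _, rfl⟩, h, (Additive.toMul (α := Γ(Y, U)ˣ) a)⁻¹.1, Units.val_inv_eq_inv_val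
      (Units.map (val φ U h).toMonoidHom (Additive.toMul (α := Γ(Y, U)ˣ) a))⟩
  · rintro ⟨h1, h2⟩
    obtain ⟨a, e1⟩ := (reg_add φ h).1 h1
    obtain ⟨b, e2⟩ := (reg_add φ h).1 h2
    have : a * b = 1 := val_inj φ U h (by rw [map_mul, e1, e2, map_one, mul_inv_cancel₀ d.ne_zero])
    exact ⟨h, Additive.ofMul (Units.mkOfMulEqOne a b this), Units.ext e1⟩

variable (φ) in
/-- Cartier divisors. -/
abbrev Dv : Type := (embMul φ).Q.obj.obj (op ⊤)

/-- `d` is an equation of the divisor `q` on `V`. -/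
def Eqn (q : Dv φ) (V : Y.Opens) (d : Lˣ) : Prop :=
  genericPoint Y ∈ V ∧ (embMul φ).cls V (Additive.ofMul d) = sres _ le_top q

variable {q q' : Dv φ} {d d' : Lˣ}

theorem Eqn.res (h : Eqn q U d) (i : V ≤ U) (hV : genericPoint Y ∈ V) : Eqn q V d :=
  ⟨hV, by rw [← Emb.cls_res _ i, h.2, sres_sres]⟩

theorem Eqn.add (h : Eqn q U d) (h' : Eqn q' U d') : Eqn (q + q') U (d * d') :=
  ⟨h.1, by rw [ofMul_mul, map_add, map_add, h.2, h'.2]⟩

theorem Eqn.neg (h : Eqn q U d) : Eqn (-q) U d⁻¹ :=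
  ⟨h.1, by rw [ofMul_inv, map_neg, map_neg, h.2]⟩

theorem cls_eq_iff (h : genericPoint Y ∈ U) :
    (embMul φ).cls U (Additive.ofMul d) = (embMul φ).cls U (Additive.ofMul d') ↔
      Rg φ U (d / d' : L) ∧ Rg φ U (d' / d : L) := by
  rw [Emb.cls_eq _ h, ← ofMul_div, reg_mul h, Units.val_div_eq_div_val, inv_div]

theorem Eqn.div (h : Eqn q U d) (h' : Eqn q U d') : Rg φ U (d / d' : L) :=
  ((cls_eq_iff h.1).1 (h.2.trans h'.2.symm)).1

theorem exists_eqn (q : Dv φ) {x : Y} (hx : x ∈ U) : ∃ V ≤ U, x ∈ V ∧ ∃ d, Eqn q V d := by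
  obtain ⟨V, _, hV, d, e⟩ := (embMul φ).cls_loc q (x := x) trivial
  exact ⟨U ⊓ V, inf_le_left, ⟨hx, hV⟩, d.toMul,
    Eqn.res ⟨gen_of_mem hV, e⟩ inf_le_right ⟨gen_of_mem hx, gen_of_mem hV⟩⟩

/-- `z` is a section over `U` of the invertible sheaf of the divisor `q`. -/
def Sec (q : Dv φ) (U : Y.Opens) (z : L) : Prop := ∀ V ≤ U, ∀ d, Eqn q V d → Rg φ V (z / d)

variable {z w : L}

theorem Sec.res (h : Sec q U z) (i : V ≤ U) : Sec q V z := fun W j => h W (j.trans i)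

theorem Sec.zero : Sec q U 0 := fun _ _ _ h => by
  rw [zero_div]
  exact Rg.zero h.1

theorem Sec.add (h : Sec q U z) (h' : Sec q U w) : Sec q U (z + w) :=
  fun V i d e => by
    rw [add_div]
    exact (h V i d e).add (h' V i d e)

theorem Sec.smul (h : Rg φ U z) (h' : Sec q U w) : Sec q U (z * w) :=
  fun V i d e => by
    rw [mul_div_assoc]
    exact (h.res i e.1).mul (h' V i d e)

theorem Sec.loc (h : ∀ x ∈ U, ∃ V d, x ∈ V ∧ Eqn q V d ∧ Rg φ V (z / d)) : Sec q U z := by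
  refine fun V i d e => Rg.loc e.1 fun x hx => ?_
  obtain ⟨W, d', hW, e', hz⟩ := h x (i hx)
  have h1 : genericPoint Y ∈ V ⊓ W := ⟨e.1, e'.1⟩
  refine ⟨V ⊓ W, ⟨hx, hW⟩, ?_⟩
  rw [← div_mul_div_cancel₀ (a := z) d'.ne_zero]
  exact (hz.res inf_le_right h1).mul ((e'.res inf_le_right h1).div (e.res inf_le_left h1))

theorem Sec.mul (h : Sec q U z) (h' : Sec q' U w) : Sec (q + q') U (z * w) := by
  refine Sec.loc fun x hx => ?_
  obtain ⟨V, i, hV, d, e⟩ := exists_eqn q hx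
  obtain ⟨W, j, hW, d', e'⟩ := exists_eqn q' hV
  refine ⟨W, d * d', hW, (e.res j e'.1).add e', ?_⟩
  rw [Units.val_mul, mul_div_mul_comm]
  exact (h W (j.trans i) d (e.res j e'.1)).mul (h' W (j.trans i) d' e')

theorem Eqn.sec (e : Eqn q U d) : Sec q U z ↔ Rg φ U (z / d) :=
  ⟨fun h => h U le_rfl d e, fun h => Sec.loc fun _ hx => ⟨U, d, hx, e, h⟩⟩

theorem sec_zero (h : genericPoint Y ∈ U) : Sec (0 : Dv φ) U z ↔ Rg φ U z := by
  rw [Eqn.sec (d := 1) ⟨h, by rw [ofMul_one, map_zero, map_zero]⟩, Units.val_one, div_one]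

theorem eqn_cls (h : genericPoint Y ∈ U) (d : Lˣ) :
    Eqn ((embMul φ).cls ⊤ (Additive.ofMul d)) U d := ⟨h, (Emb.cls_res _ _ _).symm⟩

theorem exists_dual (hU : IsAffineOpen U) (h0 : genericPoint Y ∈ U) (q : Dv φ) :
    ∃ (α : Type) (_ : Fintype α) (u v : α → L), (∀ a, Sec q U (u a)) ∧ (∀ a, Sec (-q) U (v a)) ∧
      ∑ a, u a * v a = 1 := by
  obtain ⟨t, h1, h2, h3⟩ := exists_cover hU (fun V => genericPoint Y ∈ V → ∃ d, Eqn q V d)
    (fun V W i h hW => (h (i hW)).imp fun d e => e.res i hW)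
    fun x hx => (exists_eqn q hx).imp fun V ⟨_, hV, e⟩ => ⟨hV, fun _ => e⟩
  have hη := fun a : t => (h3 a).2.elim fun _ => gen_of_mem
  choose d hd using fun a => (h3 a).1 (hη a)
  obtain ⟨N, hN⟩ := uniform (A := (val φ U h0).range)
    (g := fun p : t × t => val φ U h0 (p.1.1 * p.2.1)) (c := fun p => d p.1 / d p.2)
    (fun _ => ⟨_, rfl⟩) fun p => (reg_basic φ hU h0 (Y.basicOpen_mul _ _).symm ⟨hη _, hη _⟩).1
      (((hd p.1).res inf_le_left ⟨hη _, hη _⟩).div ((hd p.2).res inf_le_right ⟨hη _, hη _⟩))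
  obtain ⟨h, hh, e⟩ := partition φ h1 h0 (N + N)
  refine ⟨t, inferInstance, fun a => val φ U h0 a ^ N * d a,
    fun a => h a * (val φ U h0 a ^ N / d a), fun a => Sec.loc fun x hx => ?_,
    fun a => Sec.smul ((reg_add φ h0).2 (hh a)) (Sec.loc fun x hx => ?_), ?_⟩
  · obtain ⟨b, hb⟩ := Opens.mem_iSup.1 (h2 hx)
    refine ⟨_, d b, hb, hd b, (reg_basic φ hU h0 rfl (hη b)).2 ⟨N, ?_⟩⟩
    have := hN (a, b)
    rw [map_mul, mul_pow] at this
    rwa [mul_div_assoc, ← mul_assoc, mul_comm (_ ^ N)]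
  · obtain ⟨b, hb⟩ := Opens.mem_iSup.1 (h2 hx)
    refine ⟨_, (d b)⁻¹, hb, (hd b).neg, (reg_basic φ hU h0 rfl (hη b)).2 ⟨N, ?_⟩⟩
    have := hN (b, a)
    rw [map_mul, mul_pow] at this
    rwa [Units.val_inv_eq_inv_val, div_inv_eq_mul, div_mul_eq_mul_div, mul_div_assoc, ← mul_assoc]
  · rw [← e]
    refine Finset.sum_congr rfl fun a _ => ?_
    have := (d a).ne_zero
    field_simp
    ring

theorem eq_zero_of_sec (h : ∀ x : Y, ∃ U, x ∈ U ∧ Sec q U 1 ∧ Sec (-q) U 1) : q = 0 := by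
  have key : ∀ x : Y, ∃ V : Y.Opens, x ∈ V ∧ sres _ (le_top : V ≤ ⊤) q = 0 := fun x => by
    obtain ⟨U, hx, h1, h2⟩ := h x
    obtain ⟨V, i, hV, d, e⟩ := exists_eqn q hx
    refine ⟨V, hV, ?_⟩
    rw [← e.2, Emb.cls_eq_zero _ e.1, reg_mul e.1]
    exact ⟨by simpa using h2 V i _ e.neg, by simpa using h1 V i _ e⟩
  choose V hV h0 using key
  exact s_ext _ V (fun _ => le_top) (fun x _ => Opens.mem_iSup.2 ⟨x, hV x⟩) _ _ fun x => by
    rw [h0, map_zero]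

theorem exists_div {α : Type} (V : α → Y.Opens) (hc : ⊤ ≤ iSup V)
    (hη : ∀ a, genericPoint Y ∈ V a) (d : α → Lˣ)
    (h : ∀ a b, Rg φ (V a ⊓ V b) (d a / d b : L)) : ∃ q : Dv φ, ∀ a, Eqn q (V a) (d a) := by
  obtain ⟨q, hq⟩ := s_glue (embMul φ).Q V (fun _ => le_top) hc
    (fun a => (embMul φ).cls _ (Additive.ofMul (d a))) fun a b => by
      rw [Emb.cls_res, Emb.cls_res, cls_eq_iff (U := V a ⊓ V b) ⟨hη a, hη b⟩]
      exact ⟨h a b, inf_comm (V a) (V b) ▸ h b a⟩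
  exact ⟨q, fun a => ⟨hη a, (hq a).symm⟩⟩

end

end Pool.Agent.Lib.MP_dd9c4c_nt.Sc
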