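import Pool.Agent.Lib.MP_dd9c4c_nt.Sc.Var

/-! Geometric integrality. -/

set_option autoImplicit false

namespace Pool.Agent.Lib.MP_dd9c4c_nt.Sc

open CategoryTheory AlgebraicGeometry TopologicalSpace TensorProduct
open Pool.Agent.Lib.MP_cd184e_ag.T Pool.Agent.Lib.MP_cd184e_ag.B

variable {K L : Type} [Field K] [Field L] [Algebra K L]

theorem fromSpec_comp {Y : Scheme.{0}} (f : Y ⟶ Spec (.of K)) {U : Y.Opens}
    (hU : IsAffineOpen U) : hU.fromSpec ≫ f = Spec.map (CommRingCat.ofHom (const f U)) := by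
  rw [← IsAffineOpen.SpecMap_appLE_fromSpec f (isAffineOpen_top _) hU le_top,
    IsAffineOpen.fromSpec_top, Scheme.isoSpec_Spec_inv, ← Spec.map_comp]
  rfl

theorem integral_preimage {Y Z : Scheme.{0}} (f : Y ⟶ Spec (.of K)) {U : Y.Opens}
    (hU : IsAffineOpen U) (φ : Γ(Y, U) →+* L) (hφ : Function.Injective φ)
    (hc : ∀ c, φ (const f U c) = algebraMap K L c) {E : Type} [Field E] [Algebra K E]
    [IsDomain (E ⊗[K] L)] {fst : Z ⟶ Y} {snd : Z ⟶ Spec (.of E)}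
    (h : IsPullback fst snd f (Spec.map (CommRingCat.ofHom (algebraMap K E)))) :
    IsIntegral (fst ⁻¹ᵁ U).toScheme := by
  let : Algebra K Γ(Y, U) := (const f U).toAlgebra
  let ψ : Γ(Y, U) →ₐ[K] L := ⟨φ, hc⟩
  have : IsDomain (E ⊗[K] Γ(Y, U)) :=
    Function.Injective.isDomain (Algebra.TensorProduct.map (AlgHom.id K E) ψ).toRingHom
      (Module.Flat.lTensor_preserves_injective_linearMap (M := E) ψ.toLinearMap hφ)
  have h1 := (isPullback_morphismRestrict fst U).paste_vert h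
  have h2 : IsPullback ((fst ⁻¹ᵁ U).ι ≫ snd) (fst ∣_ U ≫ hU.isoSpec.hom)
      (Spec.map (CommRingCat.ofHom (algebraMap K E)))
      (Spec.map (CommRingCat.ofHom (algebraMap K Γ(Y, U)))) := by
    refine h1.flip.of_iso (.refl _) (.refl _) hU.isoSpec (.refl _) (by simp) (by simp) (by simp) ?_
    rw [Iso.refl_hom, Category.comp_id, ← hU.isoSpec_hom_fromSpec, Category.assoc,
      fromSpec_comp f hU]
  exact IsIntegral.of_isIso (h2.isoPullback ≪≫ pullbackSpecIso K E Γ(Y, U)).inv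

theorem geomInt {X : ProjVar K L} {Y : Scheme.{0}} (𝓜 : Model X Y) (f : Y ⟶ Spec (.of K))
    (hc : ∀ s c, 𝓜.e s (const f (𝓜.U s) c) = algebraMap K _ c)
    (hL : ∀ (E : Type) [Field E] [Algebra K E], IsDomain (E ⊗[K] L)) :
    GeometricallyIntegral f := by
  refine ⟨geometrically_iff_of_commRing.2 fun E _ _ Z fst snd h => ?_⟩
  have := hL E
  have hI : ∀ s, IsIntegral (fst ⁻¹ᵁ 𝓜.U s).toScheme := fun s =>
    integral_preimage f (𝓜.aff s) ((X.A s.1).val.toRingHom.comp (𝓜.e s).toRingHom)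
      (Subtype.val_injective.comp (𝓜.e s).injective)
      (fun c => congrArg Subtype.val (hc s c)) h
  have hne : ∀ s, ∃ x, x ∈ fst ⁻¹ᵁ 𝓜.U s := fun s => by
    have := hI s
    obtain ⟨x⟩ : Nonempty (fst ⁻¹ᵁ 𝓜.U s).toScheme := inferInstance
    exact ⟨x.1, x.2⟩
  have hcov : ⨆ s, fst ⁻¹ᵁ 𝓜.U s = ⊤ := fst.iSup_preimage_eq_top 𝓜.cover
  have h1 : ∀ i, IsReduced ((Z.openCoverOfIsOpenCover _ hcov).X i) := fun i =>
    have := hI i
    inferInstanceAs (IsReduced (fst ⁻¹ᵁ 𝓜.U i).toScheme)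
  have := IsReduced.of_openCover Z (Z.openCoverOfIsOpenCover _ hcov)
  have : PreirreducibleSpace Z := by
    refine PreirreducibleSpace.of_isOpenCover (U := fun s => fst ⁻¹ᵁ 𝓜.U s)
      (fun s t _ hd => ?_) hcov fun s => ?_
    · obtain ⟨x, hx⟩ := hne (un s t)
      exact hd (fst.preimage_mono (𝓜.anti (le_un_left s t)))
        (fst.preimage_mono (𝓜.anti (le_un_right s t))) hx
    · have := hI s
      exact inferInstanceAs (PreirreducibleSpace (fst ⁻¹ᵁ 𝓜.U s).toScheme)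
  obtain ⟨j, hj⟩ := X.nonempty
  obtain ⟨x, -⟩ := hne (one ⟨j, hj⟩)
  have : IrreducibleSpace Z := { toNonempty := ⟨x⟩ }
  exact isIntegral_of_irreducibleSpace_of_isReduced Z

end Pool.Agent.Lib.MP_dd9c4c_nt.Sc
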