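import Pool.Agent.Lib.MP_dd9c4c_nt.Sc.Div

/-! The rank of the first cohomology of the sheaf of units. -/

set_option autoImplicit false

namespace Pool.Agent.Lib.MP_dd9c4c_nt.Sc

open CategoryTheory AlgebraicGeometry Opposite TopologicalSpace
open Pool.Agent.Lib.MP_cd184e_ag.B

noncomputable section

theorem rank_eq_of_surj {A B C : Type} [AddCommGroup A] [AddCommGroup B] [AddCommGroup C]
    (f : A →+ B) (g : A →+ C) (hf : Function.Surjective f) (hg : Function.Surjective g)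
    (h : ∀ a, f a = 0 ↔ g a = 0) : Module.rank ℤ B = Module.rank ℤ C :=
  ((QuotientAddGroup.quotientKerEquivOfSurjective f hf).symm.trans
    ((QuotientAddGroup.quotientAddEquivOfEq (AddSubgroup.ext h)).trans
      (QuotientAddGroup.quotientKerEquivOfSurjective g hg))).toIntLinearEquiv.rank_eq

theorem rank_eq_quotRank {A B G : Type} [AddCommGroup A] [AddCommGroup B] [CommGroup G]
    (δ : A →+ B) (hδ : Function.Surjective δ) (Φ : Multiplicative A →* G) (S T : Set G)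
    (hS : ∀ g, g ∈ S ↔ g ∈ Φ.range) (hT : ∀ a, δ a = 0 → Φ (.ofAdd a) ∈ T)
    (hT' : ∀ g ∈ T, ∃ a, δ a = 0 ∧ Φ (.ofAdd a) = g) (inj : Function.Injective Φ) :
    Module.rank ℤ B = quotRank S T := by
  have e : Subgroup.closure S = Φ.range := by
    rw [show S = Φ.range from Set.ext hS, Subgroup.closure_eq]
  let ψ : Multiplicative A →* Subgroup.closure S := Φ.codRestrict _ fun a => e ▸ ⟨a, rfl⟩
  refine rank_eq_of_surj δ (MonoidHom.toAdditiveRight ((QuotientGroup.mk' _).comp ψ)) hδ ?_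
    fun a => ?_
  · refine (QuotientGroup.mk'_surjective _).comp fun g => ?_
    obtain ⟨a, ha⟩ : g.1 ∈ Φ.range := e ▸ g.2
    exact ⟨a, Subtype.ext ha⟩
  · refine Iff.trans ?_ (QuotientGroup.eq_one_iff (ψ (.ofAdd a))).symm
    refine ⟨fun h => Subgroup.subset_closure (hT a h), fun h => ?_⟩
    have : Subgroup.closure T ≤ δ.ker.toSubgroup.map Φ := (Subgroup.closure_le _).2 fun g hg =>
      (hT' g hg).elim fun a h => ⟨.ofAdd a, h.1, h.2⟩
    obtain ⟨b, hb, e⟩ := this h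
    obtain rfl : b = .ofAdd a := inj e
    exact hb

variable {K L ι : Type} [Field K] [Field L] [Algebra K L] {Y : Scheme.{0}} [IsIntegral Y]
  {φ : Y.functionField ≃+* L} {ξ : ι → L} {W : ι → Y.Opens} [∀ i, Nonempty (W i)]
  (C : Charts K ξ Y W φ)

namespace Charts

include C

theorem rg1 {i : ι} {z : L} : z ∈ chart K ξ i ↔ Rg φ (W i) z :=
  (C.r1 i z).trans (reg_add φ _).symm

theorem rg2 {i j : ι} {z : L} : z ∈ chart K ξ i ⊔ chart K ξ j ↔ Rg φ (W i ⊓ W j) z :=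
  (C.r2 i j z).trans (reg_add φ _).symm

theorem mem (x : Y) : ∃ i, x ∈ W i := Opens.mem_iSup.1 (C.cover.ge trivial)

/-- The sections of the sheaf of a divisor over a chart. -/
def M (q : Dv φ) (i : ι) : Submodule (chart K ξ i) L where
  carrier := {z | Sec q (W i) z}
  zero_mem' := Sec.zero
  add_mem' := Sec.add
  smul_mem' a _ h := Sec.smul (C.rg1.1 a.2) h

theorem M_zero (i : ι) : C.M 0 i = 1 := by
  ext z
  rw [Submodule.mem_one]
  exact (sec_zero (gen_mem' _)).trans (C.rg1.symm.trans ⟨fun h => ⟨⟨z, h⟩, rfl⟩,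
    fun ⟨a, e⟩ => e ▸ a.2⟩)

theorem M_add (q q' : Dv φ) (i : ι) : C.M (q + q') i = C.M q i * C.M q' i := by
  refine le_antisymm (fun z hz => ?_) (Submodule.mul_le.2 fun _ h _ h' => Sec.mul h h')
  obtain ⟨α, _, u, v, hu, hv, e⟩ := exists_dual (C.aff i) (gen_mem' _) q
  rw [← one_mul z, ← e, Finset.sum_mul]
  refine sum_mem fun a _ => ?_
  rw [mul_assoc]
  have := Sec.mul (hv a) hz
  rw [neg_add_cancel_left] at this
  exact Submodule.mul_mem_mul (hu a) this

/-- The family of invertible modules of a divisor. -/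
def Phi : Multiplicative (Dv φ) →* ∀ i, (Submodule (chart K ξ i) L)ˣ :=
  MonoidHom.pi fun i => MonoidHom.toHomUnits
    { toFun q := C.M q.toAdd i
      map_one' := C.M_zero i
      map_mul' _ _ := C.M_add _ _ i }

theorem Phi_val (q : Dv φ) (i : ι) : (C.Phi (.ofAdd q) i : Submodule _ L) = C.M q i := rfl

theorem Phi_inj : Function.Injective C.Phi := by
  rw [injective_iff_map_eq_one]
  intro q h
  have h' : C.Phi q⁻¹ = 1 := by rw [map_inv, h, inv_one]
  refine eq_zero_of_sec (q := q.toAdd) fun x => (C.mem x).imp' W fun i hx => ⟨hx, ?_, ?_⟩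
  · exact (show C.M q.toAdd i = 1 from congrArg Units.val (congrFun h i)).ge
      (Submodule.one_le.1 le_rfl)
  · exact (show C.M (-q.toAdd) i = 1 from congrArg Units.val (congrFun h' i)).ge
      (Submodule.one_le.1 le_rfl)

theorem span_le (q : Dv φ) (i j : ι) :
    Submodule.span ↥(chart K ξ i ⊔ chart K ξ j) (C.M q i : Set L) ≤
      Submodule.span ↥(chart K ξ i ⊔ chart K ξ j) (C.M q j : Set L) ∧
    Submodule.span ↥(chart K ξ j ⊔ chart K ξ i) (C.M q i : Set L) ≤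
      Submodule.span ↥(chart K ξ j ⊔ chart K ξ i) (C.M q j : Set L) := by
  obtain ⟨α, _, u, v, hu, hv, e⟩ := exists_dual (C.aff j) (gen_mem' _) q
  have key : ∀ A : Subalgebra K L, chart K ξ i ⊔ chart K ξ j ≤ A →
      Submodule.span A (C.M q i : Set L) ≤ Submodule.span A (C.M q j : Set L) := fun A hA => by
    refine Submodule.span_le.2 fun z hz => ?_
    rw [← one_mul z, ← e, Finset.sum_mul]
    refine sum_mem fun a _ => ?_
    have := Sec.mul ((hv a).res (inf_le_right : W i ⊓ W j ≤ _)) (Sec.res hz inf_le_left)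
    rw [neg_add_cancel, sec_zero (gen_mem' _)] at this
    rw [mul_assoc, mul_comm]
    exact Submodule.smul_mem _ (⟨_, hA (C.rg2.2 this)⟩ : A) (Submodule.subset_span (hu a))
  exact ⟨key _ le_rfl, key _ (sup_comm _ _).le⟩

theorem exists_gen {i : ι} (N : (Submodule (chart K ξ i) L)ˣ) {x : Y} (hx : x ∈ W i) :
    ∃ V ≤ W i, x ∈ V ∧ ∃ m : Lˣ, m.1 ∈ N.1 ∧ ∀ n ∈ N.1, Rg φ V (n / m) := by
  have h0 := gen_mem' (W i)
  have hm : ∀ m ∈ N.1, ∀ m' ∈ N⁻¹.1, m * m' ∈ (val φ _ h0).range := fun m h m' h' => by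
    obtain ⟨a, e⟩ := Submodule.mem_one.1 (N.mul_inv.le (Submodule.mul_mem_mul h h'))
    exact (C.r1 i _).1 (e ▸ a.2)
  have : ∃ m ∈ N.1, ∃ m' ∈ N⁻¹.1, ∃ s, val φ _ h0 s = m * m' ∧ x ∈ Y.basicOpen s := by
    by_contra! H
    have h1 : ∃ s, val φ _ h0 s = 1 ∧ x ∉ Y.basicOpen s := by
      refine Submodule.mul_induction_on (N.mul_inv.ge (Submodule.one_le.1 le_rfl))
        (fun m h m' h' => (hm m h m' h').imp fun s e => ⟨e, H m h m' h' s e⟩) ?_
      rintro _ _ ⟨s, rfl, hs⟩ ⟨s', rfl, hs'⟩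
      exact ⟨s + s', map_add _ _ _, fun h => (Y.basicOpen_add_le s s' h).elim hs hs'⟩
    obtain ⟨s, e, hs⟩ := h1
    rw [val_inj φ _ h0 (e.trans (map_one _).symm), Scheme.basicOpen_one] at hs
    exact hs hx
  obtain ⟨m, h, m', h', s, e, hs⟩ := this
  have h1 := gen_of_mem hs
  have h2 := val_ne φ h1
  have h3 := inv_mem φ h1
  rw [e] at h2 h3
  refine ⟨_, Y.basicOpen_le s, hs, Units.mk0 m (left_ne_zero_of_mul h2), h, fun n hn => ?_⟩
  rw [Units.val_mk0, ← mul_div_mul_right n m (right_ne_zero_of_mul h2), div_eq_mul_inv]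
  exact (Rg.res ((reg_add φ h0).2 (hm n hn m' h')) (Y.basicOpen_le s) h1).mul
    ((reg_add φ h1).2 h3)

theorem Phi_surj (N : ∀ i, (Submodule (chart K ξ i) L)ˣ) (hN : ∀ i j,
    Submodule.span ↥(chart K ξ i ⊔ chart K ξ j) ((N i : Submodule (chart K ξ i) L) : Set L) =
      Submodule.span ↥(chart K ξ i ⊔ chart K ξ j) ((N j : Submodule (chart K ξ j) L) : Set L)) :
    N ∈ C.Phi.range := by
  let α := {p : ι × Y.Opens × Lˣ // p.2.1 ≤ W p.1 ∧ genericPoint Y ∈ p.2.1 ∧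
    p.2.2.1 ∈ (N p.1).1 ∧ ∀ n ∈ (N p.1).1, Rg φ p.2.1 (n / p.2.2)}
  have ex : ∀ i x, x ∈ W i → ∃ a : α, a.1.1 = i ∧ x ∈ a.1.2.1 := fun i x hx => by
    obtain ⟨V, h1, h2, m, h3⟩ := C.exists_gen (N i) hx
    exact ⟨⟨(i, V, m), h1, gen_of_mem h2, h3⟩, rfl, h2⟩
  obtain ⟨q, hq⟩ := exists_div (φ := φ) (fun a : α => a.1.2.1)
    (fun x _ => (C.mem x).elim fun i hx => Opens.mem_iSup.2 ((ex i x hx).imp fun _ h => h.2))
    (fun a => a.2.2.1) (fun a => a.1.2.2) fun a b => by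
      have h0 : genericPoint Y ∈ a.1.2.1 ⊓ b.1.2.1 := ⟨a.2.2.1, b.2.2.1⟩
      have h1 := (hN a.1.1 b.1.1).le (Submodule.subset_span a.2.2.2.1)
      generalize (a.1.2.2 : L) = z at h1
      induction h1 using Submodule.span_induction with
      | mem n hn => exact (b.2.2.2.2 n hn).res inf_le_right h0
      | zero => rw [zero_div]; exact Rg.zero h0
      | add y z _ _ hy hz => rw [add_div]; exact hy.add hz
      | smul c y _ hy =>
        rw [smul_div_assoc]
        exact ((C.rg2.1 c.2).res (inf_le_inf a.2.1 b.2.1) h0).mul hy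
  refine ⟨.ofAdd q, funext fun i => Units.ext (le_antisymm (fun z hz => ?_) fun n hn => ?_)⟩
  · have h1 : ∀ n' ∈ (N i)⁻¹.1, z * n' ∈ chart K ξ i := fun n' hn' => by
      refine C.rg1.2 (Rg.loc (gen_mem' _) fun x hx => ?_)
      obtain ⟨a, rfl, ha⟩ := ex i x hx
      obtain ⟨c, e⟩ := Submodule.mem_one.1
        ((N a.1.1).mul_inv.le (Submodule.mul_mem_mul a.2.2.2.1 hn'))
      refine ⟨_, ha, ?_⟩
      rw [← div_mul_cancel₀ z a.1.2.2.ne_zero, mul_assoc, ← e]
      exact (hz _ a.2.1 _ (hq a)).mul ((C.rg1.1 c.2).res a.2.1 a.2.2.1)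
    rw [← mul_one z]
    refine Submodule.mul_induction_on (C := fun y => z * y ∈ (N i).1)
      ((N i).inv_mul.ge (Submodule.one_le.1 le_rfl)) (fun n' hn' n hn => ?_) fun y y' h h' => ?_
    · rw [← mul_assoc]
      exact (N i).1.smul_mem ⟨_, h1 n' hn'⟩ hn
    · rw [mul_add]
      exact add_mem h h'
  · refine Sec.loc fun x hx => ?_
    obtain ⟨a, rfl, ha⟩ := ex i x hx
    exact ⟨_, _, ha, hq a, a.2.2.2.2 n hn⟩

theorem M_cls (d : Lˣ) (i : ι) :
    C.M ((embMul φ).cls ⊤ (Additive.ofMul d)) i = Submodule.span (chart K ξ i) {d.1} := by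
  ext z
  rw [Submodule.mem_span_singleton]
  refine (eqn_cls (gen_mem' _) d).sec.trans (C.rg1.symm.trans
    ⟨fun h => ⟨⟨_, h⟩, div_mul_cancel₀ z d.ne_zero⟩, ?_⟩)
  rintro ⟨a, rfl⟩
  exact (mul_div_cancel_right₀ a.1 d.ne_zero).symm ▸ a.2

theorem rank_H1 [Nonempty ι] : rankH1 (unitSheaf Y) = picRank K ξ := by
  obtain ⟨δ, h1, h2⟩ := (embMul φ).exists_delta trivial
  refine rank_eq_quotRank (A := Dv φ) δ h1 C.Phi _ _ (fun N => ⟨fun h => C.Phi_surj N h, ?_⟩)
    (fun q hq => ?_) (fun N ⟨z, hz⟩ => ?_) C.Phi_inj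
  · rintro ⟨q, rfl⟩ i j
    exact le_antisymm (C.span_le q.toAdd i j).1 (C.span_le q.toAdd j i).2
  · obtain ⟨d, rfl⟩ := (h2 q).1 hq
    exact ⟨_, C.M_cls d.toMul⟩
  · have h0 : z ≠ 0 := by
      rintro rfl
      obtain ⟨i⟩ := ‹Nonempty ι›
      exact (N i).ne_zero ((hz i).trans (Submodule.span_zero_singleton _))
    exact ⟨_, (h2 _).2 ⟨Additive.ofMul (Units.mk0 z h0), rfl⟩,
      funext fun i => Units.ext ((C.M_cls _ i).trans (hz i).symm)⟩

end Charts

end

end Pool.Agent.Lib.MP_dd9c4c_nt.Sc
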