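import Pool.Agent.Lib.MP_dd9c4c_nt.Sc.Pts

/-! Density of rational points and transport of the height zeta function. -/

set_option autoImplicit false

namespace Pool.Agent.Lib.MP_dd9c4c_nt.Sc

open CategoryTheory AlgebraicGeometry TopologicalSpace
open Pool.Agent.Lib.MP_cd184e_ag.T Pool.Agent.Lib.MP_cd184e_ag.B

theorem hasPole_equiv {X Y : Type} {q t : ℕ} {h : X → ℕ} {h' : Y → ℕ} {U : Set X} {V : Set Y}
    (E : U ≃ V) (hE : ∀ x : U, h' (E x) = h x) (H : HasPole q h U t) : HasPole q h' V t := by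
  have e : ∀ s : ℂ, (fun x : U => (q : ℂ) ^ (-s * h x)) =
      (fun y : V => (q : ℂ) ^ (-s * h' y)) ∘ E := fun s => funext fun x => by
    rw [Function.comp_apply, hE]
  obtain ⟨θ, h1, f, h2, h3, h4⟩ := H
  simp only [e, E.summable_iff] at h1
  refine ⟨θ, h1, f, h2, h3, h4.mono fun s hs hθ => (hs hθ).trans ?_⟩
  rw [e]
  exact E.tsum_eq fun y : V => (q : ℂ) ^ (-s * h' y)

theorem Rel.coord {K S ι : Type} [Field K] [CommRing S] [Algebra K S] {𝒜 : ℕ → Submodule K S}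
    [GradedAlgebra 𝒜] {x : ι → S} {p : Pt 𝒜} {r : ι → K} (h : Rel 𝒜 x p r) (hr : r ≠ 0)
    (y : ι → K) : Coord x p y ↔ ∃ c : K, r = fun i => c * y i := by
  have key : ∀ i j, y i • x j - y j • x i ∈ p.pt.asHomogeneousIdeal ↔ y i * r j = y j * r i := by
    intro i j
    have := h 1 (MvPolynomial.C (y i) * MvPolynomial.X j - MvPolynomial.C (y j) * MvPolynomial.X i)
      one_pos (((MvPolynomial.isHomogeneous_X K j).C_mul _).sub
        ((MvPolynomial.isHomogeneous_X K i).C_mul _))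
    simpa [Algebra.smul_def, sub_eq_zero] using this
  constructor
  · rintro ⟨h0, h1⟩
    obtain ⟨i, hi⟩ := Function.ne_iff.1 h0
    have hi' : y i ≠ 0 := hi
    refine ⟨r i / y i, funext fun j => ?_⟩
    have := (key i j).1 (h1 i j)
    field_simp
    linear_combination this
  · rintro ⟨c, rfl⟩
    refine ⟨?_, fun i j => (key i j).2 (by ring)⟩
    rintro rfl
    exact hr (funext fun i => mul_zero c)

variable {K L ι : Type} [Field K] [Field L] [Algebra K L] [Fintype ι] [Nonempty ι]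
  {ξ : ι → L} (hne : ∀ i, ξ i ≠ 0)

theorem exists_form (W : (Proj (grade (var K ξ hne))).Opens)
    (hW : (W : Set (Proj (grade (var K ξ hne)))).Nonempty) :
    ∃ (n : ℕ) (G : MvPolynomial ι K), 0 < n ∧ G.IsHomogeneous n ∧ MvPolynomial.aeval ξ G ≠ 0 ∧
      Proj.basicOpen _ (MvPolynomial.aeval (xx K hne) G) ≤ W := by
  obtain ⟨z, hz⟩ := hW
  obtain ⟨_, ⟨f, rfl⟩, h1, h2⟩ := Opens.isBasis_iff_nbhd.1 (Proj.isBasis_basicOpen _) hz
  obtain ⟨F, rfl⟩ := aeval_xx_surj hne f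
  rw [Proj.basicOpen_eq_iSup_proj] at h1 h2
  obtain ⟨n, hn⟩ := Opens.mem_iSup.1 h1
  have h3 := (le_iSup _ n).trans h2
  rw [proj_aeval _ (xx_mem hne)] at hn h3
  obtain ⟨j⟩ := ‹Nonempty ι›
  have hG := MvPolynomial.homogeneousComponent_isHomogeneous n F
  refine ⟨n + 1, MvPolynomial.homogeneousComponent n F * MvPolynomial.X j, n.succ_pos,
    hG.mul (MvPolynomial.isHomogeneous_X K j), ?_, ?_⟩
  · rw [map_mul, MvPolynomial.aeval_X]
    refine mul_ne_zero (fun h => ?_) (hne j)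
    have h4 := aeval_mem _ (xx_mem (K := K) hne) hG
    have h5 := eq_zero_of_ev _ h4 ((ev_aeval hne _).trans h)
    rw [h5, Proj.basicOpen_zero] at hn
    exact hn
  · rw [map_mul, Proj.basicOpen_mul]
    exact inf_le_left.trans h3

theorem basicOpen_nonempty {g : hring (var K ξ hne)} (hg : g ≠ 0) :
    (Proj.basicOpen (grade (var K ξ hne)) g : Set (Proj (grade (var K ξ hne)))).Nonempty := by
  obtain ⟨j⟩ := ‹Nonempty ι›
  refine ⟨(⟨⊥, Ideal.isPrime_bot, fun h => hne j ?_⟩ : ProjectiveSpectrum _), hg⟩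
  have h1 : xx K hne j ∈ HomogeneousIdeal.irrelevant (grade (var K ξ hne)) :=
    DirectSum.decompose_of_mem_ne _ (xx_mem hne j) one_ne_zero
  have h2 : xx K hne j = 0 := h h1
  rw [← ev_xx (K := K) hne j, h2, map_zero]

theorem dense_pt (hd : ∀ (n : ℕ) (G : MvPolynomial ι K), G.IsHomogeneous n →
    (∀ x ∈ pts K ξ, MvPolynomial.eval x.rep G = 0) → MvPolynomial.aeval ξ G = 0) :
    DenseRange (Pt.pt (𝒜 := grade (var K ξ hne))) := by
  obtain ⟨e, he⟩ := exists_ptEquiv (K := K) hne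
  refine dense_iff_inter_open.2 fun W hW h0 => ?_
  obtain ⟨n, G, hn, hG, h1, h2⟩ := exists_form hne ⟨W, hW⟩ h0
  by_contra h3
  refine h1 (hd n G hG fun z hz => ?_)
  by_contra h4
  refine h3 ⟨_, h2 fun h5 => h4 ?_, e.symm ⟨z, hz⟩, rfl⟩
  have := (he (e.symm ⟨z, hz⟩) n G hn hG).1 h5
  rwa [Equiv.apply_symm_apply] at this

theorem no_pole (F : Type) [Field F] [Algebra (Polynomial F) K] (q t : ℕ)
    (H : ∀ (n : ℕ) (G₀ : MvPolynomial ι K), G₀.IsHomogeneous n → MvPolynomial.aeval ξ G₀ ≠ 0 →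
      ∃ (m : ℕ) (G : MvPolynomial ι K), G.IsHomogeneous m ∧ MvPolynomial.aeval ξ G ≠ 0 ∧
        ¬ HasPole q (height F) {x ∈ pts K ξ | MvPolynomial.eval x.rep (G₀ * G) ≠ 0} t)
    (U₀ : (Proj (grade (var K ξ hne))).Opens) (h₀ : Dense (U₀ : Set (Proj (grade (var K ξ hne))))) :
    ∃ U ≤ U₀, Dense (U : Set (Proj (grade (var K ξ hne)))) ∧
      ¬ HasPole q (ht (xx K hne) F) {p : Pt (grade (var K ξ hne)) | p.pt ∈ U} t := by
  obtain ⟨e, he⟩ := exists_ptEquiv (K := K) hne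
  obtain ⟨n, G₀, hn, hG₀, h1, h2⟩ := exists_form hne U₀ h₀.nonempty
  obtain ⟨m, G, hG, h3, h4⟩ := H n G₀ hG₀ h1
  refine ⟨Proj.basicOpen _ (MvPolynomial.aeval (xx K hne) (G₀ * G)), ?_, ?_, fun h5 => h4 ?_⟩
  · rw [map_mul, Proj.basicOpen_mul]
    exact inf_le_left.trans h2
  · refine (Opens.isOpen _).dense (basicOpen_nonempty hne fun h => mul_ne_zero h1 h3 ?_)
    rw [← map_mul, ← ev_aeval hne, h, map_zero]
  · let E : {p : Pt (grade (var K ξ hne)) | p.pt ∈ Proj.basicOpen (grade (var K ξ hne))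
        (MvPolynomial.aeval (xx K hne) (G₀ * G))} ≃
        {x ∈ pts K ξ | MvPolynomial.eval x.rep (G₀ * G) ≠ 0} :=
      (e.subtypeEquiv fun p => not_congr
        (he p (n + m) _ (hn.trans_le (n.le_add_right m)) (hG₀.mul hG))).trans
        (Equiv.subtypeSubtypeEquivSubtypeInter (· ∈ pts K ξ)
          fun x => MvPolynomial.eval x.rep (G₀ * G) ≠ 0)
    refine hasPole_equiv E (fun p => ?_) h5
    change height F (e p.1).1 = _
    refine congrArg sInf (Set.ext fun k => exists_congr fun P => ?_)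
    rw [Rel.coord (he p.1) (e p.1).1.rep_nonzero, exists_and_right]

end Pool.Agent.Lib.MP_dd9c4c_nt.Sc
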