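import Pool.Agent.Lib.MP_dd9c4c_nt.Main
import Pool.Agent.Lib.MP_dd9c4c_nt.Sc.Pic
import Pool.Agent.Lib.MP_dd9c4c_nt.Sc.Canon
import Pool.Agent.Lib.MP_dd9c4c_nt.Sc.Geom
import Pool.Agent.Lib.MP_dd9c4c_nt.Sc.Pole

/-! The counterexample as a scheme. -/

set_option autoImplicit false

namespace Pool.Agent.Lib.MP_dd9c4c_nt.Sc

open CategoryTheory AlgebraicGeometry
open Pool.Agent.Lib.MP_cd184e_ag.T Pool.Agent.Lib.MP_cd184e_ag.B

section

variable {K L ι : Type} [Field K] [Field L] [Algebra K L] [Fintype ι] [Nonempty ι]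
  {ξ : ι → L} (h : Hyp K ξ)

theorem smooth_var : Smooth (strMap (grade (var K ξ h.ne))) := by
  refine (projModel (var K ξ h.ne)).smooth (strMap (grade (var K ξ h.ne)))
    (secEquiv_const _) fun j _ => ?_
  obtain ⟨i, rfl⟩ := (Fintype.equivFin ι).surjective j
  have := h.smooth i
  rwa [← A_idx h.ne] at this

theorem geom_var (hL : ∀ (E : Type) [Field E] [Algebra K E], IsDomain (TensorProduct K E L)) :
    GeometricallyIntegral (strMap (grade (var K ξ h.ne))) :=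
  geomInt (projModel (var K ξ h.ne)) (strMap (grade (var K ξ h.ne))) (secEquiv_const _) hL

theorem anti_var : Anticanonical (grade (var K ξ h.ne)) (xx K h.ne) (xx_mem h.ne) := by
  obtain ⟨φ, C, hc, hr⟩ := exists_charts h.ne (Hyp.frac h)
  refine ⟨ne_chart h.ne, ?_⟩
  let := constAlgebra (strMap (grade (var K ξ h.ne)))
  refine topFrames h φ hc _ (fun i z => (C.r1 i _).trans ?_) _ hr
  exact ⟨fun ⟨a, e⟩ => ⟨a, φ.injective e⟩, fun ⟨a, e⟩ => ⟨a, congrArg φ e⟩⟩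

theorem coh_var : Vanish (addSheaf (Proj (grade (var K ξ h.ne)))) 1 ∧
    Vanish (addSheaf (Proj (grade (var K ξ h.ne)))) 2 ∧
    rankH1 (unitSheaf (Proj (grade (var K ξ h.ne)))) = picRank K ξ := by
  obtain ⟨φ, C, -⟩ := exists_charts h.ne (Hyp.frac h)
  exact ⟨C.H1 h, C.H2 h, C.rank_H1⟩

end

theorem final (F : Type) [Field F] [Fintype F] (hq : 61 ≤ Fintype.card F) (h2 : (2 : F) ≠ 0) :
    ∃ (S ι : Type) (_ : CommRing S) (_ : Algebra (RatFunc F) S)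
      (𝒜 : ℕ → Submodule (RatFunc F) S) (_ : GradedAlgebra 𝒜) (_ : Finite ι) (x : ι → S)
      (hx : ∀ i, x i ∈ 𝒜 1) (_ : IsIntegral (Proj 𝒜)) (t : ℕ),
      Algebra.adjoin (RatFunc F) (Set.range x) = ⊤ ∧ Smooth (strMap 𝒜) ∧
      GeometricallyIntegral (strMap 𝒜) ∧ Anticanonical 𝒜 x hx ∧
      Vanish (addSheaf (Proj 𝒜)) 1 ∧ Vanish (addSheaf (Proj 𝒜)) 2 ∧
      DenseRange (Pt.pt (𝒜 := 𝒜)) ∧ rankH1 (unitSheaf (Proj 𝒜)) = t ∧
      ∀ U₀ : (Proj 𝒜).Opens, Dense (U₀ : Set (Proj 𝒜)) → ∃ U ≤ U₀, Dense (U : Set (Proj 𝒜)) ∧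
        ¬ HasPole (Fintype.card F) (ht x F) {p : Pt 𝒜 | p.pt ∈ U} t := by
  obtain ⟨ι, L, _, _, _, ξ, t, _, hL, h, ht, H⟩ := main₂ F hq h2
  refine ⟨hring (var (RatFunc F) ξ h.ne), ι, inferInstance, inferInstance,
    grade (var (RatFunc F) ξ h.ne), inferInstance, inferInstance, xx _ h.ne, xx_mem h.ne,
    integral h.ne, t, ?_, ?_, ?_, ?_, ?_, ?_, ?_, ?_, ?_⟩
  · exact adjoin_xx h.ne
  · exact smooth_var h
  · exact geom_var h hL
  · exact anti_var h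
  · exact (coh_var h).1
  · exact (coh_var h).2.1
  · exact dense_pt h.ne h.dense
  · exact (coh_var h).2.2.trans ht
  · exact no_pole h.ne F _ t H

end Pool.Agent.Lib.MP_dd9c4c_nt.Sc
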