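import Pool.Agent.Lib.MP_dd9c4c_nt.Sc.Var

/-! Rational points and their homogeneous coordinates. -/

set_option autoImplicit false

namespace Pool.Agent.Lib.MP_dd9c4c_nt.Sc

open CategoryTheory AlgebraicGeometry TopologicalSpace
open Pool.Agent.Lib.MP_cd184e_ag.T Pool.Agent.Lib.MP_cd184e_ag.B

section General

open MvPolynomial HomogeneousLocalization

theorem eval₂_scale {K R ι : Type} [CommRing K] [CommRing R] (f : K →+* R) {G : MvPolynomial ι K}
    {m : ℕ} (hG : G.IsHomogeneous m) (c : R) (v : ι → R) :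
    eval₂ f (fun j => c * v j) G = c ^ m * eval₂ f v G := by
  rw [eval₂_eq, eval₂_eq, Finset.mul_sum]
  refine Finset.sum_congr rfl fun d hd => ?_
  have h : ∑ j ∈ d.support, d j = m := by
    rw [← hG (mem_support_iff.1 hd)]
    simp [Finsupp.weight_apply, Finsupp.sum]
  simp only [mul_pow]
  rw [Finset.prod_mul_distrib, Finset.prod_pow_eq_pow_sum, h]
  ring

variable {K S ι : Type} [Field K] [CommRing S] [Algebra K S] (𝒜 : ℕ → Submodule K S)
  [GradedAlgebra 𝒜] {x : ι → S}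

theorem aeval_mem (hx : ∀ i, x i ∈ 𝒜 1) {G : MvPolynomial ι K} {m : ℕ}
    (hG : G.IsHomogeneous m) : aeval x G ∈ 𝒜 m := by
  rw [aeval_def, eval₂_eq]
  refine Submodule.sum_mem _ fun d hd => ?_
  have h : ∑ j ∈ d.support, d j = m := by
    rw [← hG (mem_support_iff.1 hd)]
    simp [Finsupp.weight_apply, Finsupp.sum]
  rw [← Algebra.smul_def, ← h]
  refine Submodule.smul_mem _ _ (SetLike.prod_mem_graded 𝒜 _ _ fun j _ => ?_)
  simpa using SetLike.pow_mem_graded (d j) (hx j)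

theorem proj_aeval (hx : ∀ i, x i ∈ 𝒜 1) (F : MvPolynomial ι K) (n : ℕ) :
    GradedRing.proj 𝒜 n (aeval x F) = aeval x (homogeneousComponent n F) := by
  conv_lhs => rw [← sum_homogeneousComponent F, map_sum, map_sum]
  rw [Finset.sum_eq_single n]
  · exact DirectSum.decompose_of_mem_same 𝒜
      (aeval_mem 𝒜 hx (homogeneousComponent_isHomogeneous n F))
  · intro k _ hk
    exact DirectSum.decompose_of_mem_ne 𝒜
      (aeval_mem 𝒜 hx (homogeneousComponent_isHomogeneous k F)) hk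
  · intro hn
    rw [homogeneousComponent_eq_zero n F (by simpa using hn), map_zero, map_zero]

/-- Constants in a chart. -/
noncomputable def cst (f : S) : K →+* Away 𝒜 f :=
  (fromZeroRingHom 𝒜 _).comp (algebraMap K (𝒜 0))

theorem mk_aeval (hx : ∀ i, x i ∈ 𝒜 1) (i : ι) {G : MvPolynomial ι K} {m : ℕ}
    (hG : G.IsHomogeneous m) (h : aeval x G ∈ 𝒜 (m • 1)) :
    Away.mk 𝒜 (hx i) m (aeval x G) h =
      eval₂ (cst 𝒜 (x i)) (fun j => Away.mk 𝒜 (hx i) 1 (x j) (hx j)) G := by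
  apply val_injective
  have e := eval₂_comp_left (algebraMap (Away 𝒜 (x i)) (Localization.Away (x i))) (cst 𝒜 (x i))
    (fun j => Away.mk 𝒜 (hx i) 1 (x j) (hx j)) G
  have e1 : (algebraMap (Away 𝒜 (x i)) (Localization.Away (x i))).comp (cst 𝒜 (x i)) =
      (algebraMap S (Localization.Away (x i))).comp (algebraMap K S) := rfl
  have e2 : (algebraMap (Away 𝒜 (x i)) (Localization.Away (x i))) ∘
      (fun j => Away.mk 𝒜 (hx i) 1 (x j) (hx j)) =
      fun j => Localization.mk 1 ⟨x i, Submonoid.mem_powers _⟩ *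
        (algebraMap S (Localization.Away (x i)) ∘ x) j := by
    funext j
    change Localization.mk _ _ = _ * Localization.mk _ 1
    rw [Localization.mk_mul]
    simp
  rw [e1, e2, eval₂_scale _ hG, ← eval₂_comp_left, ← aeval_def] at e
  refine Eq.trans ?_ e.symm
  change Localization.mk _ _ = _ * Localization.mk _ 1
  rw [Localization.mk_pow, Localization.mk_mul]
  simp only [one_pow, one_mul, mul_one]
  rfl

theorem mem_pt {f : S} (hf : f ∈ 𝒜 1) (φ : Away 𝒜 f →+* K) {g : S} {m : ℕ} (hm : 0 < m)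
    (hg : g ∈ 𝒜 (m • 1)) :
    g ∈ ((Spec.map (CommRingCat.ofHom φ) ≫ Proj.awayι 𝒜 f hf one_pos)
      (IsLocalRing.closedPoint K)).asHomogeneousIdeal ↔ φ (Away.mk 𝒜 hf m g hg) = 0 := by
  have hg' : g ∈ 𝒜 m := by simpa using hg
  have h1 := Proj.awayι_preimage_basicOpen 𝒜 hf one_pos hg' hm
  have h2 : Away.isLocalizationElem hf hg' = Away.mk 𝒜 hf m g hg := by
    apply val_injective
    simp
  rw [h2] at h1
  have h3 := congrArg
    (fun U => Spec.map (CommRingCat.ofHom φ) (IsLocalRing.closedPoint K) ∈ U) h1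
  rw [← not_iff_not]
  refine (iff_of_eq h3).trans ?_
  change φ (Away.mk 𝒜 hf m g hg) ∉ IsLocalRing.maximalIdeal K ↔ _
  rw [IsLocalRing.maximalIdeal_eq_bot, Ideal.mem_bot]

theorem exists_factor {f : S} (hf : f ∈ 𝒜 1) (p : Spec (.of K) ⟶ Proj 𝒜)
    (h : f ∉ (p (IsLocalRing.closedPoint K)).asHomogeneousIdeal) :
    ∃ φ : Away 𝒜 f →+* K, p = Spec.map (CommRingCat.ofHom φ) ≫ Proj.awayι 𝒜 f hf one_pos := by
  have hr : Set.range p ⊆ Set.range (Proj.awayι 𝒜 f hf one_pos) := by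
    rintro _ ⟨t, rfl⟩
    obtain rfl : t = IsLocalRing.closedPoint K := Subsingleton.elim (α := PrimeSpectrum K) _ _
    exact (Proj.opensRange_awayι 𝒜 f hf one_pos).ge h
  obtain ⟨φ, hφ⟩ := Spec.map_surjective (IsOpenImmersion.lift _ p hr)
  exact ⟨φ.hom, by rw [CommRingCat.ofHom_hom, hφ, IsOpenImmersion.lift_fac]⟩

theorem factor_str {f : S} (hf : f ∈ 𝒜 1) (φ : Away 𝒜 f →+* K) :
    (Spec.map (CommRingCat.ofHom φ) ≫ Proj.awayι 𝒜 f hf one_pos) ≫ strMap 𝒜 = 𝟙 _ ↔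
      φ.comp (cst 𝒜 f) = RingHom.id K := by
  rw [strMap, Category.assoc, Proj.awayι_toSpecZero_assoc, ← Spec.map_comp, ← Spec.map_comp,
    ← Spec.map_id, Spec.map_inj]
  exact ⟨fun h => congrArg CommRingCat.Hom.hom h, fun h => CommRingCat.hom_ext h⟩

/-- `y` are coordinates of `p`. -/
def Rel (x : ι → S) (p : Pt 𝒜) (y : ι → K) : Prop :=
  ∀ (m : ℕ) (G : MvPolynomial ι K), 0 < m → G.IsHomogeneous m →
    (aeval x G ∈ p.pt.asHomogeneousIdeal ↔ eval y G = 0)

theorem exists_chart_hom (hx : ∀ i, x i ∈ 𝒜 1) (p : Pt 𝒜) (i : ι)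
    (h : x i ∉ p.pt.asHomogeneousIdeal) :
    ∃ (φ : Away 𝒜 (x i) →+* K) (u : ι → K), u i = 1 ∧ Rel 𝒜 x p u ∧
      p.1 = Spec.map (CommRingCat.ofHom φ) ≫ Proj.awayι 𝒜 (x i) (hx i) one_pos ∧
      ∀ (m : ℕ) (G : MvPolynomial ι K) (h : aeval x G ∈ 𝒜 (m • 1)), G.IsHomogeneous m →
        φ (Away.mk 𝒜 (hx i) m (aeval x G) h) = eval u G := by
  obtain ⟨φ, hφ⟩ := exists_factor 𝒜 (hx i) p.1 h
  have h1 := (factor_str 𝒜 (hx i) φ).1 (hφ ▸ p.2)
  have h2 : ∀ (m : ℕ) (G : MvPolynomial ι K) (h : aeval x G ∈ 𝒜 (m • 1)), G.IsHomogeneous m →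
      φ (Away.mk 𝒜 (hx i) m (aeval x G) h) =
        eval (fun j => φ (Away.mk 𝒜 (hx i) 1 (x j) (hx j))) G := fun m G h hG => by
    rw [mk_aeval 𝒜 hx i hG, eval₂_comp_left, h1]
    rfl
  refine ⟨φ, _, ?_, fun m G hm hG => ?_, hφ, h2⟩
  · have : Away.mk 𝒜 (hx i) 1 (x i) (hx i) = 1 := by
      apply val_injective
      simp
    simp only [this, map_one]
  · have h3 : aeval x G ∈ 𝒜 (m • 1) := by simpa using aeval_mem 𝒜 hx hG
    rw [← h2 m G h3 hG, ← mem_pt 𝒜 (hx i) φ hm h3, ← hφ]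
    rfl

theorem Rel.smul {p : Pt 𝒜} {y : ι → K} (h : Rel 𝒜 x p y) {c : K} (hc : c ≠ 0) :
    Rel 𝒜 x p (c • y) := fun m G hm hG => by
  have e : eval (c • y) G = c ^ m * eval y G := eval₂_scale (RingHom.id K) hG c y
  rw [h m G hm hG, e, mul_eq_zero, or_iff_right (pow_ne_zero _ hc)]

theorem Rel.cross {p : Pt 𝒜} {y z : ι → K} (h : Rel 𝒜 x p y) (h' : Rel 𝒜 x p z) (i j : ι) :
    y i * z j = y j * z i := by
  have hG : (C (y i) * X j - C (y j) * X i : MvPolynomial ι K).IsHomogeneous 1 :=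
    ((isHomogeneous_X K j).C_mul _).sub ((isHomogeneous_X K i).C_mul _)
  have := (h' 1 _ one_pos hG).1 ((h 1 _ one_pos hG).2 (by simp [mul_comm]))
  simpa [sub_eq_zero] using this

theorem Rel.not_mem {p : Pt 𝒜} {y : ι → K} (h : Rel 𝒜 x p y) {i : ι} (hi : y i ≠ 0) :
    x i ∉ p.pt.asHomogeneousIdeal := fun hp =>
  hi (by simpa using (h 1 (X i) one_pos (isHomogeneous_X K i)).1 (by simpa using hp))

theorem Rel.pt_eq (hx : ∀ i, x i ∈ 𝒜 1) (hs : Function.Surjective (aeval (R := K) x))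
    {p q : Pt 𝒜} {y : ι → K} (hy : y ≠ 0) (h : Rel 𝒜 x p y) (h' : Rel 𝒜 x q y) : p = q := by
  obtain ⟨i, hi⟩ := Function.ne_iff.1 hy
  obtain ⟨φ, u, hu, ru, e, hφ⟩ := exists_chart_hom 𝒜 hx p i (h.not_mem 𝒜 hi)
  obtain ⟨ψ, v, hv, rv, e', hψ⟩ := exists_chart_hom 𝒜 hx q i (h'.not_mem 𝒜 hi)
  obtain rfl : u = v := funext fun j => mul_left_cancel₀ hi (by
    rw [h.cross 𝒜 ru i j, h'.cross 𝒜 rv i j, hu, hv])
  obtain rfl : φ = ψ := RingHom.ext fun z => by
    obtain ⟨n, a, ha, rfl⟩ := Away.mk_surjective 𝒜 (hx i) z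
    obtain ⟨F, rfl⟩ := hs a
    have h1 : aeval x F = aeval x (homogeneousComponent n F) :=
      (DirectSum.decompose_of_mem_same 𝒜 (by simpa using ha)).symm.trans (proj_aeval 𝒜 hx F n)
    have h2 : Away.mk 𝒜 (hx i) n _ ha = Away.mk 𝒜 (hx i) n _ (h1 ▸ ha) := by
      congr 1
    rw [h2, hφ n _ _ (homogeneousComponent_isHomogeneous n F),
      hψ n _ _ (homogeneousComponent_isHomogeneous n F)]
  exact Subtype.ext (e.trans e'.symm)

theorem exists_pt (hx : ∀ i, x i ∈ 𝒜 1) (hs : Function.Surjective (aeval (R := K) x))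
    {y : ι → K} (hy : y ≠ 0)
    (h0 : ∀ (n : ℕ) (G : MvPolynomial ι K), G.IsHomogeneous n → aeval x G = 0 → eval y G = 0) :
    ∃ p : Pt 𝒜, Rel 𝒜 x p y := by
  obtain ⟨i, hi⟩ := Function.ne_iff.1 hy
  have hk : RingHom.ker (aeval (R := K) x).toRingHom ≤ RingHom.ker (aeval (R := K) y).toRingHom :=
    fun F hF => by
      have hF' : aeval x F = 0 := hF
      change eval y F = 0
      rw [← sum_homogeneousComponent F, map_sum]
      refine Finset.sum_eq_zero fun n _ => h0 n _ (homogeneousComponent_isHomogeneous n F) ?_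
      rw [← proj_aeval 𝒜 hx, hF', map_zero]
  let ψ : S →ₐ[K] K := AlgHom.liftOfSurjective _ hs _ hk
  have hψ : ∀ F, ψ (aeval x F) = eval y F := fun F => AlgHom.liftOfSurjective_apply _ hs _ hk F
  have hi' : ψ.toRingHom (x i) ≠ 0 := by
    have := hψ (X i)
    rw [aeval_X, eval_X] at this
    exact this ▸ hi
  let φ : Away 𝒜 (x i) →+* K :=
    (IsLocalization.Away.lift (S := Localization.Away (x i)) (x i)
      (g := ψ.toRingHom) hi'.isUnit).comp (algebraMap _ _)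
  have hφ : ∀ (n : ℕ) (a : S) (ha : a ∈ 𝒜 (n • 1)),
      φ (Away.mk 𝒜 (hx i) n a ha) = ψ.toRingHom a / ψ.toRingHom (x i) ^ n := fun n a ha => by
    rw [RingHom.comp_apply, HomogeneousLocalization.algebraMap_apply, Away.val_mk,
      Localization.mk_eq_mk', IsLocalization.Away.lift, IsLocalization.lift_mk'_spec, map_pow,
      mul_div_cancel₀ _ (pow_ne_zero _ hi')]
  refine ⟨⟨_, (factor_str 𝒜 (hx i) φ).2 (RingHom.ext fun c => ?_)⟩, fun m G hm hG => ?_⟩
  · have e : cst 𝒜 (x i) c =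
        Away.mk 𝒜 (hx i) 0 (algebraMap K S c) (algebraMap K (𝒜 0) c).2 := by
      ext
      simp [cst, fromZeroRingHom]
    rw [RingHom.comp_apply, e, hφ, pow_zero, div_one]
    exact ψ.commutes c
  · have h3 : aeval x G ∈ 𝒜 (m • 1) := by simpa using aeval_mem 𝒜 hx hG
    refine (mem_pt 𝒜 (hx i) φ hm h3).trans ?_
    rw [hφ, div_eq_zero_iff, or_iff_left (pow_ne_zero _ hi'), ← hψ]
    rfl

end General

variable {K L ι : Type} [Field K] [Field L] [Algebra K L] [Fintype ι] [Nonempty ι]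
  {ξ : ι → L} (hne : ∀ i, ξ i ≠ 0)

theorem aeval_xx_surj : Function.Surjective (MvPolynomial.aeval (R := K) (xx K hne)) := by
  rw [← AlgHom.range_eq_top, ← Algebra.adjoin_range_eq_range_aeval, adjoin_xx]

theorem ev_aeval (G : MvPolynomial ι K) :
    ev _ (MvPolynomial.aeval (xx K hne) G) = MvPolynomial.aeval ξ G := by
  rw [MvPolynomial.aeval_def, MvPolynomial.eval₂_comp_left, MvPolynomial.aeval_def]
  congr 1
  · exact RingHom.ext (ev_algebraMap _)
  · exact funext (ev_xx hne)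

theorem exists_coord (p : Pt (grade (var K ξ hne))) :
    ∃ z : pts K ξ, Rel _ (xx K hne) p z.1.rep := by
  obtain ⟨l, -, hl⟩ := exists_chart _ p.pt
  obtain ⟨i, rfl⟩ := (Fintype.equivFin ι).surjective l
  obtain ⟨φ, u, hu, ru, -, hφ⟩ := exists_chart_hom _ (xx_mem hne) p i hl
  have h0 : u ≠ 0 := fun h => one_ne_zero (hu.symm.trans (congrFun h i))
  obtain ⟨a, ha⟩ := Projectivization.exists_smul_eq_mk_rep K u h0
  refine ⟨⟨Projectivization.mk K u h0, fun n G hG h => ?_⟩, ha ▸ ru.smul _ a.ne_zero⟩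
  have h1 := aeval_mem _ (xx_mem (K := K) hne) hG
  have h2 := eq_zero_of_ev _ h1 ((ev_aeval hne G).trans h)
  have h3 := hφ n G (by simpa using h1) hG
  have h4 : MvPolynomial.eval ((a : K) • u) G = (a : K) ^ n * MvPolynomial.eval u G :=
    eval₂_scale (RingHom.id K) hG a u
  rw [← ha]
  refine h4.trans ?_
  have h5 : MvPolynomial.eval u G = φ 0 := h3.symm.trans
    (congrArg φ (HomogeneousLocalization.mk_eq_zero_of_num _ (Subtype.ext h2)))
  rw [h5, map_zero, mul_zero]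

theorem exists_ptEquiv : ∃ e : Pt (grade (var K ξ hne)) ≃ pts K ξ,
    ∀ (p : Pt (grade (var K ξ hne))) (m : ℕ) (G : MvPolynomial ι K), 0 < m → G.IsHomogeneous m →
      (MvPolynomial.aeval (xx K hne) G ∈ p.pt.asHomogeneousIdeal ↔
        MvPolynomial.eval (e p).1.rep G = 0) := by
  choose f hf using exists_coord (K := K) hne
  refine ⟨Equiv.ofBijective f ⟨fun p q h => ?_, fun z => ?_⟩, hf⟩
  · exact Rel.pt_eq _ (xx_mem hne) (aeval_xx_surj hne) (f p).1.rep_nonzero (hf p) (h ▸ hf q)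
  · obtain ⟨p, hp⟩ := exists_pt _ (xx_mem hne) (aeval_xx_surj hne) z.1.rep_nonzero
      fun n G hG h => z.2 n G hG (by rw [← ev_aeval hne, h, map_zero])
    refine ⟨p, Subtype.ext ?_⟩
    obtain ⟨i, hi⟩ := Function.ne_iff.1 z.1.rep_nonzero
    have hi' : z.1.rep i ≠ 0 := hi
    rw [← (f p).1.mk_rep, ← z.1.mk_rep, Projectivization.mk_eq_mk_iff']
    refine ⟨(f p).1.rep i / z.1.rep i, funext fun j => ?_⟩
    have := hp.cross _ (hf p) i j
    rw [Pi.smul_apply, smul_eq_mul]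
    field_simp
    linear_combination -this

end Pool.Agent.Lib.MP_dd9c4c_nt.Sc
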